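import Mathlib

/-!
# Toeplitz sequences close to a given sequence (helper132)

`HasWords a L K`: the sequence `a` has at most `K` words of length `L`.
`tz s a`: a Toeplitz sequence, all of whose periods are powers of two, which differs from `a` in few places.
-/

set_option autoImplicit false

namespace Pool.Agent.Q132.TS

open Finset

variable {A : Type*}

/-- the sequence `a` has at most `K` different words of length `L` -/
def HasWords (a : ℕ → A) (L K : ℕ) : Prop :=
  ∃ S : Finset ℕ, S.card ≤ K ∧ ∀ n, ∃ m ∈ S, ∀ i < L, a (n + i) = a (m + i)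

lemma HasWords.mono {a : ℕ → A} {L K K' : ℕ} (h : HasWords a L K) (hK : K ≤ K') : HasWords a L K' := by
  obtain ⟨S, h1, h2⟩ := h
  exact ⟨S, h1.trans hK, h2⟩

lemma hasWords_of_data {D : Type*} {a : ℕ → A} {L : ℕ} (data : ℕ → D) (R : Finset D)
    (h : ∀ n, data n ∈ R) (heq : ∀ n m, data n = data m → ∀ i < L, a (n + i) = a (m + i)) :
    HasWords a L R.card := by
  classical
  let pos : D → ℕ := fun d => if hd : ∃ n, data n = d then hd.choose else 0
  refine ⟨R.image pos, Finset.card_image_le, ?_⟩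
  intro n
  refine ⟨pos (data n), Finset.mem_image_of_mem _ (h n), ?_⟩
  have hd : ∃ m, data m = data n := ⟨n, rfl⟩
  have hpos : data (pos (data n)) = data n := by
    simp only [pos, dif_pos hd]
    exact hd.choose_spec
  exact heq n _ hpos.symm

/-- the exponents of the periods -/
def Ex (s : ℕ) : ℕ → ℕ
  | 0 => 0
  | k + 1 => Ex s k + s + k

/-- the scales -/
def M (s k : ℕ) : ℕ := 2 ^ Ex s k

lemma Ex_mono (s : ℕ) : Monotone (Ex s) := by
  apply monotone_nat_of_le_succ
  intro n
  simp only [Ex]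
  omega

lemma Ex_ge {s : ℕ} (hs : 1 ≤ s) (k : ℕ) : k ≤ Ex s k := by
  induction k with
  | zero => exact Nat.zero_le _
  | succ k ih => simp only [Ex]; omega

lemma M_pos (s k : ℕ) : 0 < M s k := pow_pos (by norm_num) _

lemma M_dvd (s : ℕ) {j k : ℕ} (h : j ≤ k) : M s j ∣ M s k := pow_dvd_pow 2 (Ex_mono s h)

lemma M_le (s : ℕ) {j k : ℕ} (h : j ≤ k) : M s j ≤ M s k := Nat.le_of_dvd (M_pos s k) (M_dvd s h)

lemma M_zero (s : ℕ) : M s 0 = 1 := by simp [M, Ex]

lemma M_succ (s k : ℕ) : M s (k + 1) = M s k * 2 ^ (s + k) := by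
  simp only [M, Ex, ← pow_add, add_assoc]

lemma M_gt {s : ℕ} (hs : 1 ≤ s) (k : ℕ) : k < M s k :=
  (Ex_ge hs k).trans_lt Nat.lt_two_pow_self

lemma M_two {s : ℕ} (hs : 1 ≤ s) (k : ℕ) : 2 * M s k ≤ M s (k + 1) := by
  rw [M_succ, mul_comm]
  apply Nat.mul_le_mul_left
  calc 2 = 2 ^ 1 := rfl
    _ ≤ 2 ^ (s + k) := Nat.pow_le_pow_right (by norm_num) (by omega)

/-- the place `x` is filled at the stage `k` or before -/
def InB (s k x : ℕ) : Prop := x % M s (k + 1) < M s k

instance (s k x : ℕ) : Decidable (InB s k x) := inferInstanceAs (Decidable (_ < _))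

lemma inB_of_lt {s k x : ℕ} (h : x < M s k) : InB s k x :=
  (Nat.mod_le _ _).trans_lt h

lemma exists_inB {s : ℕ} (hs : 1 ≤ s) (J x : ℕ) : ∃ k, J ≤ k ∧ InB s k x :=
  ⟨max J x, le_max_left _ _, inB_of_lt ((le_max_right J x).trans_lt (M_gt hs _))⟩

open Classical in
/-- the first stage after `J` at which `x` is filled -/
noncomputable def st (s J x : ℕ) : ℕ :=
  if h : ∃ k, J ≤ k ∧ InB s k x then Nat.find h else 0

lemma st_spec {s : ℕ} (hs : 1 ≤ s) (J x : ℕ) : J ≤ st s J x ∧ InB s (st s J x) x := by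
  have h := exists_inB hs J x
  unfold st
  rw [dif_pos h]
  exact Nat.find_spec h

lemma st_min {s : ℕ} (hs : 1 ≤ s) {J x k : ℕ} (h1 : J ≤ k) (h2 : InB s k x) : st s J x ≤ k := by
  have h := exists_inB hs J x
  unfold st
  rw [dif_pos h]
  exact Nat.find_min' h ⟨h1, h2⟩

lemma st_eq {s : ℕ} (hs : 1 ≤ s) {J x y : ℕ} (h : ∀ k, J ≤ k → k ≤ st s J x → (InB s k x ↔ InB s k y)) :
    st s J y = st s J x := by
  have h1 := st_spec hs J x
  have h2 : st s J y ≤ st s J x := st_min hs h1.1 ((h _ h1.1 le_rfl).1 h1.2)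
  refine le_antisymm h2 ?_
  have h3 := st_spec hs J y
  exact st_min hs h3.1 ((h _ h3.1 h2).2 h3.2)

/-- the address of `x` -/
noncomputable def ad (s J x : ℕ) : ℕ := x % M s (st s J x + 1)

/-- the Toeplitz sequence -/
noncomputable def tz (s : ℕ) (a : ℕ → A) (x : ℕ) : A := a (ad s 0 x)

lemma tz_period {s : ℕ} (hs : 1 ≤ s) (a : ℕ → A) (x m : ℕ) :
    tz s a (x + m * M s (st s 0 x + 1)) = tz s a x := by
  have hst : st s 0 (x + m * M s (st s 0 x + 1)) = st s 0 x := by
    apply st_eq hs
    intro k _ hk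
    unfold InB
    have : M s (k + 1) ∣ m * M s (st s 0 x + 1) := (M_dvd s (by omega)).mul_left m
    obtain ⟨c, hc⟩ := this
    rw [hc, Nat.add_mul_mod_self_left]
  unfold tz ad
  rw [hst, Nat.add_mul_mod_self_right]

/-- few changes -/
lemma tz_count {s : ℕ} (hs : 1 ≤ s) (a : ℕ → A) (N : ℕ) [DecidableEq A] :
    (((range N).filter (fun x => tz s a x ≠ a x)).card : ℝ) ≤ 2 / 2 ^ s * N := by
  classical
  have h1 : (range N).filter (fun x => tz s a x ≠ a x) ⊆
      (range N).biUnion (fun k => (range N).filter (fun x => M s (k + 1) ≤ x ∧ InB s k x)) := by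
    intro x hx
    rw [mem_filter, mem_range] at hx
    rw [mem_biUnion]
    have hsp := st_spec hs 0 x
    have hle : M s (st s 0 x + 1) ≤ x := by
      by_contra hlt
      apply hx.2
      unfold tz ad
      rw [Nat.mod_eq_of_lt (by omega)]
    refine ⟨st s 0 x, ?_, ?_⟩
    · rw [mem_range]
      have := M_gt hs (st s 0 x + 1)
      omega
    · rw [mem_filter, mem_range]
      exact ⟨hx.1, hle, hsp.2⟩
  have h2 : ∀ k, (((range N).filter (fun x => M s (k + 1) ≤ x ∧ InB s k x)).card : ℝ) ≤
      (1 / 2) ^ k * (1 / 2 ^ s * N) := by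
    intro k
    have h3 : ((range N).filter (fun x => M s (k + 1) ≤ x ∧ InB s k x)).card ≤
        (N / M s (k + 1)) * M s k := by
      have h4 : ((range N).filter (fun x => M s (k + 1) ≤ x ∧ InB s k x)).card ≤
          ((Icc 1 (N / M s (k + 1))) ×ˢ (range (M s k))).card := by
        apply Finset.card_le_card_of_injOn (fun x => (x / M s (k + 1), x % M s (k + 1)))
        · intro x hx
          rw [mem_coe, mem_filter, mem_range] at hx
          rw [mem_coe, mem_product, mem_Icc, mem_range]
          refine ⟨⟨?_, ?_⟩, hx.2.2⟩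
          · exact (Nat.one_le_div_iff (M_pos _ _)).2 hx.2.1
          · exact Nat.div_le_div_right hx.1.le
        · intro x _ y _ hxy
          rw [Prod.mk.injEq] at hxy
          rw [← Nat.div_add_mod x (M s (k + 1)), ← Nat.div_add_mod y (M s (k + 1)), hxy.1, hxy.2]
      rwa [card_product, Nat.card_Icc, card_range, Nat.add_sub_cancel] at h4
    have h5 : (((range N).filter (fun x => M s (k + 1) ≤ x ∧ InB s k x)).card : ℝ) ≤
        (N / M s (k + 1)) * M s k := by
      calc (((range N).filter (fun x => M s (k + 1) ≤ x ∧ InB s k x)).card : ℝ)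
          ≤ (((N / M s (k + 1)) * M s k : ℕ) : ℝ) := by exact_mod_cast h3
        _ = ((N / M s (k + 1) : ℕ) : ℝ) * M s k := by push_cast; ring
        _ ≤ (N / M s (k + 1)) * M s k := by
          apply mul_le_mul_of_nonneg_right _ (Nat.cast_nonneg _)
          exact Nat.cast_div_le
    refine h5.trans (le_of_eq ?_)
    rw [M_succ]
    have : (M s k : ℝ) ≠ 0 := by exact_mod_cast (M_pos s k).ne'
    push_cast
    rw [pow_add]
    field_simp
    rw [mul_assoc, ← mul_pow]
    norm_num
  calc (((range N).filter (fun x => tz s a x ≠ a x)).card : ℝ)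
      ≤ (((range N).biUnion (fun k => (range N).filter (fun x => M s (k + 1) ≤ x ∧ InB s k x))).card : ℝ) := by
        exact_mod_cast card_le_card h1
    _ ≤ ∑ k ∈ range N, (((range N).filter (fun x => M s (k + 1) ≤ x ∧ InB s k x)).card : ℝ) := by
        exact_mod_cast card_biUnion_le
    _ ≤ ∑ k ∈ range N, (1 / 2 : ℝ) ^ k * (1 / 2 ^ s * N) := sum_le_sum (fun k _ => h2 k)
    _ = (∑ k ∈ range N, (1 / 2 : ℝ) ^ k) * (1 / 2 ^ s * N) := by rw [sum_mul]
    _ ≤ 2 * (1 / 2 ^ s * N) := by
        apply mul_le_mul_of_nonneg_right _ (by positivity)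
        exact (sum_geometric_two_le N)
    _ = 2 / 2 ^ s * N := by ring


/-! ### The number of words -/

lemma inB_iff_div {s k Q x : ℕ} (hQ : 0 < Q) (h : Q ∣ M s k) :
    InB s k x ↔ (x / Q) % (M s (k + 1) / Q) < M s k / Q := by
  obtain ⟨c, hc⟩ := h
  have h2 : Q ∣ M s (k + 1) := (Dvd.intro c hc.symm).trans (M_dvd s (Nat.le_succ k))
  obtain ⟨c', hc'⟩ := h2
  unfold InB
  rw [hc, hc', Nat.mul_div_cancel_left _ hQ, Nat.mul_div_cancel_left _ hQ, Nat.mod_mul]
  have h3 := Nat.mod_lt x hQ
  constructor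
  · intro h4
    by_contra h5
    rw [not_lt] at h5
    have : Q * c ≤ Q * (x / Q % c') := Nat.mul_le_mul_left _ h5
    omega
  · intro h4
    have : Q * (x / Q % c' + 1) ≤ Q * c := Nat.mul_le_mul_left _ h4
    rw [Nat.mul_add, Nat.mul_one] at this
    omega

/-- the distance to the end of the piece of `n` -/
def ds (s J n : ℕ) : ℕ :=
  if n % M s (J + 2) < M s (J + 1) then M s (J + 1) - n % M s (J + 2) else M s (J + 2) - n % M s (J + 2)

lemma ds_pos (s J n : ℕ) : 0 < ds s J n := by
  unfold ds
  have := Nat.mod_lt n (M_pos s (J + 2))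
  split_ifs <;> omega

lemma mod_add_lt {n i Q : ℕ} (h : n % Q + i < Q) : (n + i) % Q = n % Q + i := by
  rw [Nat.add_mod, Nat.mod_eq_of_lt (show i < Q by omega), Nat.mod_eq_of_lt h]

lemma div_add_lt {n i Q : ℕ} (h : n % Q + i < Q) : (n + i) / Q = n / Q := by
  have hQ : 0 < Q := by omega
  rw [Nat.add_div hQ, Nat.div_eq_of_lt (show i < Q by omega), if_neg]
  · rfl
  · rw [Nat.mod_eq_of_lt (show i < Q by omega)]; omega

lemma run {s : ℕ} (hs : 1 ≤ s) (J n i : ℕ) (hi : i < ds s J n) :
    ad s (J + 1) (n + i) = ad s (J + 1) n + i := by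
  have hQ := M_pos s (J + 2)
  have hPQ : M s (J + 1) ≤ M s (J + 2) := M_le s (by omega)
  have hr := Nat.mod_lt n hQ
  unfold ds at hi
  by_cases hc : n % M s (J + 2) < M s (J + 1)
  · rw [if_pos hc] at hi
    have h1 : (n + i) % M s (J + 2) = n % M s (J + 2) + i := mod_add_lt (by omega)
    have h2 : ∀ x, x % M s (J + 2) < M s (J + 1) → st s (J + 1) x = J + 1 := by
      intro x hx
      exact le_antisymm (st_min hs le_rfl hx) (st_spec hs _ _).1
    unfold ad
    rw [h2 n hc, h2 (n + i) (by omega)]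
    exact h1
  · rw [if_neg hc] at hi
    have h1 : (n + i) % M s (J + 2) = n % M s (J + 2) + i := mod_add_lt (by omega)
    have h1' : (n + i) / M s (J + 2) = n / M s (J + 2) := div_add_lt (by omega)
    have h2 : st s (J + 1) (n + i) = st s (J + 1) n := by
      apply st_eq hs
      intro k hk _
      rcases Nat.eq_or_lt_of_le hk with hk | hk
      · subst hk
        have hA : ∀ x, InB s (J + 1) x ↔ x % M s (J + 2) < M s (J + 1) := fun x => Iff.rfl
        rw [hA, hA, h1]
        constructor <;> intro h <;> omega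
      · have hd : M s (J + 2) ∣ M s k := M_dvd s hk
        rw [inB_iff_div hQ hd, inB_iff_div hQ hd, h1']
    unfold ad
    rw [h2]
    have hk0 : J + 2 ≤ st s (J + 1) n + 1 := by
      have := (st_spec hs (J + 1) n).1
      omega
    obtain ⟨c', hc'⟩ := M_dvd s hk0
    rw [hc', Nat.mod_mul, Nat.mod_mul, h1, h1']
    ring

lemma ds_of_lt {s J y : ℕ} (h : y % M s (J + 2) < M s (J + 1)) :
    ds s J y = M s (J + 1) - y % M s (J + 2) := by
  unfold ds; rw [if_pos h]

lemma ds_of_ge {s J y : ℕ} (h : ¬ y % M s (J + 2) < M s (J + 1)) :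
    ds s J y = M s (J + 2) - y % M s (J + 2) := by
  unfold ds; rw [if_neg h]

lemma ds_next {s : ℕ} (hs : 1 ≤ s) (J n : ℕ) : M s (J + 1) ≤ ds s J (n + ds s J n) := by
  have hQ := M_pos s (J + 2)
  have hPQ : 2 * M s (J + 1) ≤ M s (J + 2) := M_two hs _
  have hP := M_pos s (J + 1)
  have hr := Nat.mod_lt n hQ
  by_cases hc : n % M s (J + 2) < M s (J + 1)
  · have h1 : ds s J n = M s (J + 1) - n % M s (J + 2) := by unfold ds; rw [if_pos hc]
    have h2 : (n + ds s J n) % M s (J + 2) = M s (J + 1) := by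
      rw [h1, mod_add_lt (by omega)]; omega
    have h3 : ds s J (n + ds s J n) = M s (J + 2) - M s (J + 1) := by
      rw [ds_of_ge (by rw [h2]; exact lt_irrefl _), h2]
    rw [h3]; omega
  · have h1 : ds s J n = M s (J + 2) - n % M s (J + 2) := by unfold ds; rw [if_neg hc]
    have h2 : (n + ds s J n) % M s (J + 2) = 0 := by
      rw [h1, Nat.add_mod]
      rcases Nat.eq_zero_or_pos (n % M s (J + 2)) with h0 | h0
      · rw [h0]; simp
      · rw [Nat.mod_eq_of_lt (show M s (J + 2) - n % M s (J + 2) < M s (J + 2) by omega),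
          Nat.add_sub_cancel' hr.le, Nat.mod_self]
    have h3 : ds s J (n + ds s J n) = M s (J + 1) := by
      rw [ds_of_lt (by rw [h2]; exact hP), h2, Nat.sub_zero]
    rw [h3]

lemma st_high {s : ℕ} (hs : 1 ≤ s) {J x : ℕ} (h : ∀ j ≤ J, ¬ InB s j x) : st s 0 x = st s (J + 1) x := by
  have h1 := st_spec hs 0 x
  have h2 := st_spec hs (J + 1) x
  have h3 : J + 1 ≤ st s 0 x := by
    by_contra hlt
    exact h _ (by omega) h1.2
  exact le_antisymm (st_min hs (Nat.zero_le _) h2.2) (st_min hs h3 h1.2)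

/-- the code of the pattern of the stage `J` in the window of length `L` at `n` -/
def d2 (s J L n : ℕ) : ℕ :=
  if n % M s (J + 1) < M s J then n % M s (J + 1)
  else if M s (J + 1) < n % M s (J + 1) + L then M s J + (M s (J + 1) - n % M s (J + 1)) else M s J

lemma d2_lt {s J L n : ℕ} (hL : 1 ≤ L) : d2 s J L n < M s J + L := by
  unfold d2
  have := Nat.mod_lt n (M_pos s (J + 1))
  split_ifs <;> omega

lemma low_stage {s J L n m : ℕ} (h : d2 s J L n = d2 s J L m) {i : ℕ} (hi : i < L) :
    (InB s J (n + i) ∨ InB s J (m + i)) → n % M s (J + 1) = m % M s (J + 1) := by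
  have hn := Nat.mod_lt n (M_pos s (J + 1))
  have hm := Nat.mod_lt m (M_pos s (J + 1))
  unfold d2 at h
  by_cases hn1 : n % M s (J + 1) < M s J
  · rw [if_pos hn1] at h
    split_ifs at h with hm1 hm2
    · intro _; exact h
    · omega
    · omega
  · rw [if_neg hn1] at h
    by_cases hn2 : M s (J + 1) < n % M s (J + 1) + L
    · rw [if_pos hn2] at h
      split_ifs at h with hm1 hm2
      · omega
      · intro _; omega
      · omega
    · rw [if_neg hn2] at h
      split_ifs at h with hm1 hm2
      · omega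
      · omega
      · intro hor
        exfalso
        rcases hor with h1 | h1
        · unfold InB at h1
          rw [mod_add_lt (by omega)] at h1
          omega
        · unfold InB at h1
          rw [mod_add_lt (by omega)] at h1
          omega

theorem tz_words {s : ℕ} (hs : 1 ≤ s) (a : ℕ → A) {J L K : ℕ} (hL : 1 ≤ L) (hJ : M s J ≤ L)
    (hJ' : L ≤ M s (J + 1)) (h : HasWords a L K) : HasWords (tz s a) L (2 * L ^ 3 * K ^ 2) := by
  obtain ⟨S, hS, hφ⟩ := h
  choose φ hφS hφ using hφ
  have hdata := hasWords_of_data (a := tz s a) (L := L)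
    (fun n => ((n % M s J, d2 s J L n), (min L (ds s J n),
      (φ (ad s (J + 1) n), φ (ad s (J + 1) (n + min L (ds s J n)))))))
    ((range (M s J) ×ˢ range (M s J + L)) ×ˢ (Icc 1 L ×ˢ (S ×ˢ S))) ?_ ?_
  · refine hdata.mono ?_
    rw [card_product, card_product, card_product, card_product, card_range, card_range, Nat.card_Icc,
      Nat.add_sub_cancel]
    calc M s J * (M s J + L) * (L * (S.card * S.card)) ≤ L * (L + L) * (L * (K * K)) := by gcongr
      _ = 2 * L ^ 3 * K ^ 2 := by ring
  · intro n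
    simp only [mem_product, mem_range, mem_Icc]
    refine ⟨⟨Nat.mod_lt _ (M_pos _ _), d2_lt hL⟩, ⟨?_, min_le_left _ _⟩, hφS _, hφS _⟩
    exact le_min hL (ds_pos s J n)
  · intro n m hnm i hi
    simp only [Prod.mk.injEq] at hnm
    obtain ⟨⟨e1, e2⟩, e3, e4, e5⟩ := hnm
    -- the stages up to `J`
    have hmod : ∀ k, k + 1 ≤ J → (n + i) % M s (k + 1) = (m + i) % M s (k + 1) := by
      intro k hk
      have h1 : n % M s (k + 1) = m % M s (k + 1) := by
        rw [← Nat.mod_mod_of_dvd n (M_dvd s hk), ← Nat.mod_mod_of_dvd m (M_dvd s hk), e1]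
      rw [Nat.add_mod, h1, ← Nat.add_mod]
    have hlow : ∀ k ≤ J, (InB s k (n + i) ∨ InB s k (m + i)) →
        (n + i) % M s (k + 1) = (m + i) % M s (k + 1) := by
      intro k hk hor
      rcases Nat.eq_or_lt_of_le hk with hk | hk
      · subst hk
        have h1 := low_stage e2 hi hor
        rw [Nat.add_mod, h1, ← Nat.add_mod]
      · exact hmod k hk
    have hiff : ∀ k ≤ J, (InB s k (n + i) ↔ InB s k (m + i)) := by
      intro k hk
      constructor
      · intro h1
        have h2 := hlow k hk (Or.inl h1)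
        unfold InB at h1 ⊢
        rwa [← h2]
      · intro h1
        have h2 := hlow k hk (Or.inr h1)
        unfold InB at h1 ⊢
        rwa [h2]
    by_cases hex : ∃ k ≤ J, InB s k (n + i)
    · obtain ⟨k, hk, hin⟩ := hex
      have h1 : st s 0 (n + i) ≤ J := (st_min hs (Nat.zero_le _) hin).trans hk
      have h2 : st s 0 (m + i) = st s 0 (n + i) := by
        apply st_eq hs
        intro k' _ hk'
        exact hiff k' (hk'.trans h1)
      unfold tz ad
      rw [h2, hlow _ h1 (Or.inl (st_spec hs 0 (n + i)).2)]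
    · push Not at hex
      have hex' : ∀ k ≤ J, ¬ InB s k (m + i) := fun k hk h1 => hex k hk ((hiff k hk).2 h1)
      unfold tz
      have g1 : ad s 0 (n + i) = ad s (J + 1) (n + i) := by unfold ad; rw [st_high hs hex]
      have g2 : ad s 0 (m + i) = ad s (J + 1) (m + i) := by unfold ad; rw [st_high hs hex']
      rw [g1, g2]
      by_cases hit : i < min L (ds s J n)
      · have hit' : i < min L (ds s J m) := by rw [← e3]; exact hit
        rw [run hs J n i (lt_of_lt_of_le hit (min_le_right _ _)),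
          run hs J m i (lt_of_lt_of_le hit' (min_le_right _ _)), hφ _ i hi, hφ (ad s (J + 1) m) i hi, e4]
      · rw [not_lt] at hit
        have ht : min L (ds s J n) = ds s J n := by
          rcases le_total L (ds s J n) with hle | hle
          · rw [min_eq_left hle] at hit; omega
          · exact min_eq_right hle
        have hit' : min L (ds s J m) ≤ i := by rw [← e3]; exact hit
        have ht' : min L (ds s J m) = ds s J m := by
          rcases le_total L (ds s J m) with hle | hle
          · rw [min_eq_left hle] at hit'; omega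
          · exact min_eq_right hle
        rw [ht, ht'] at e3
        rw [ht, ht'] at e5
        rw [ht] at hit
        rw [ht'] at hit'
        have k1 : n + i = (n + ds s J n) + (i - ds s J n) := by omega
        have k2 : m + i = (m + ds s J m) + (i - ds s J m) := by omega
        have k3 := ds_next hs J n
        have k4 := ds_next hs J m
        have k5 : i - ds s J n < L := by omega
        have k6 : i - ds s J m < L := by omega
        have k7 : i - ds s J n < ds s J (n + ds s J n) := by omega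
        have k8 : i - ds s J m < ds s J (m + ds s J m) := by omega
        rw [k1, run hs J _ _ k7, hφ _ _ k5, e5]
        rw [show a (ad s (J + 1) (m + i)) = a (ad s (J + 1) (m + ds s J m + (i - ds s J m))) by rw [← k2],
          run hs J _ _ k8, hφ _ _ k6, e3]

/-- **Few words.** -/
theorem tz_words' {s : ℕ} (hs : 1 ≤ s) (a : ℕ → A) {L K : ℕ} (hL : 1 ≤ L) (h : HasWords a L K) :
    HasWords (tz s a) L (2 * L ^ 3 * K ^ 2) := by
  classical
  have hex : ∃ k, L ≤ M s (k + 1) := ⟨L, ((M_gt hs L).le).trans (M_le s (Nat.le_succ L))⟩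
  have h1 := Nat.find_spec hex
  refine tz_words hs a hL ?_ h1 h
  rcases Nat.eq_zero_or_pos (Nat.find hex) with h0 | h0
  · rw [h0, M_zero]; exact hL
  · have h2 := Nat.find_min hex (show Nat.find hex - 1 < Nat.find hex by omega)
    rw [Nat.sub_add_cancel h0] at h2
    omega

end Pool.Agent.Q132.TS
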