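import Mathlib
import Pool.Agent.Q132.TS.A

/-!
# Sequences of zero entropy (helper132)

A complex sequence with few words up to `ε`, for every `ε`, is uniformly close to a sequence with finitely many
values and zero entropy.
-/

set_option autoImplicit false

namespace Pool.Agent.Q132.TS

open Finset Filter Topology

/-- the sequence `a` has zero entropy: the number of its words of length `L` is `exp (o(L))` -/
def ZE {A : Type*} (a : ℕ → A) : Prop :=
  ∀ δ : ℝ, 0 < δ → ∀ᶠ L : ℕ in atTop, ∃ K : ℕ, (K : ℝ) ≤ Real.exp (δ * L) ∧ HasWords a L K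

/-- for all `η, δ > 0` and all large `L` at most `exp (δ L) - 1` words of length `L` represent all words of
length `L` up to `η` -/
def AZ (α : ℕ → ℂ) : Prop :=
  ∀ η : ℝ, 0 < η → ∀ δ : ℝ, 0 < δ → ∃ L₀ : ℕ, ∀ L : ℕ, L₀ ≤ L → ∃ S : Finset ℕ,
    (S.card : ℝ) + 1 ≤ Real.exp (δ * L) ∧ ∀ n, ∃ m ∈ S, ∀ i < L, ‖α (n + i) - α (m + i)‖ ≤ η

/-- one step -/
def Qm (Lc : ℕ → ℕ) (φ : ℕ → ℕ → ℕ) (j p n : ℕ) : ℕ := φ j (p - n % Lc j) + n % Lc j

/-- the steps `j - 1, j - 2, …, 0` -/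
def Fm (Lc : ℕ → ℕ) (φ : ℕ → ℕ → ℕ) : ℕ → ℕ → ℕ → ℕ
  | 0, p, _ => p
  | j + 1, p, n => Fm Lc φ j (Qm Lc φ j p n) n

section

variable {Lc : ℕ → ℕ} {φ : ℕ → ℕ → ℕ}

lemma Fm_congr {j : ℕ} : ∀ {p n n' : ℕ}, (∀ i < j, n % Lc i = n' % Lc i) →
    Fm Lc φ j p n = Fm Lc φ j p n' := by
  induction j with
  | zero => intro p n n' _; rfl
  | succ j ih =>
    intro p n n' h
    simp only [Fm, Qm]
    rw [h j (Nat.lt_succ_self j)]
    exact ih (fun i hi => h i (by omega))

lemma Fm_err (hpos : ∀ j, 0 < Lc j) (hdvd : ∀ i j, i ≤ j → Lc i ∣ Lc j) (α : ℕ → ℂ) (η : ℕ → ℝ)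
    (hφ : ∀ j n, ∀ i < Lc j, ‖α (n + i) - α (φ j n + i)‖ ≤ η j) (n : ℕ) :
    ∀ (j p : ℕ), (∀ i < j, n % Lc i ≤ p) → ‖α p - α (Fm Lc φ j p n)‖ ≤ ∑ i ∈ range j, η i := by
  intro j
  induction j with
  | zero => intro p _; simp [Fm]
  | succ j ih =>
    intro p hp
    simp only [Fm]
    have h1 : n % Lc j ≤ p := hp j (Nat.lt_succ_self j)
    have h2 : ‖α p - α (Qm Lc φ j p n)‖ ≤ η j := by
      have h3 := hφ j (p - n % Lc j) (n % Lc j) (Nat.mod_lt _ (hpos j))
      rwa [Nat.sub_add_cancel h1] at h3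
    have h4 := ih (Qm Lc φ j p n) (fun i hi => by
      have h5 : n % Lc i ≤ n % Lc j := by
        rw [← Nat.mod_mod_of_dvd n (hdvd i j hi.le)]
        exact Nat.mod_le _ _
      unfold Qm
      omega)
    rw [sum_range_succ]
    calc ‖α p - α (Fm Lc φ j (Qm Lc φ j p n) n)‖
        = ‖(α p - α (Qm Lc φ j p n)) + (α (Qm Lc φ j p n) - α (Fm Lc φ j (Qm Lc φ j p n) n))‖ := by
          congr 1; ring
      _ ≤ _ := (norm_add_le _ _).trans (by linarith)

lemma Fm_block (hdvd : ∀ i j, i ≤ j → Lc i ∣ Lc j) {S : ℕ → Finset ℕ}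
    (hφS : ∀ j n, φ j n ∈ S j) (j q : ℕ) : ∀ (d C : ℕ), ∃ m ∈ S j, ∀ o < Lc j,
      Fm Lc φ (j + d + 1) (C + o) (q * Lc j + o) = Fm Lc φ j (m + o) o := by
  intro d
  induction d with
  | zero =>
    intro C
    refine ⟨φ j C, hφS j C, ?_⟩
    intro o ho
    have h1 : (q * Lc j + o) % Lc j = o := by
      rw [Nat.add_comm, Nat.add_mul_mod_self_right, Nat.mod_eq_of_lt ho]
    simp only [Fm, Qm]
    rw [h1, Nat.add_sub_cancel]
    apply Fm_congr
    intro i hi
    obtain ⟨c, hc⟩ := (hdvd i j hi.le).mul_left q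
    rw [hc, Nat.add_comm, Nat.add_mul_mod_self_left]
  | succ d ih =>
    intro C
    obtain ⟨m, hm, h⟩ := ih (φ (j + d + 1) (C - (q * Lc j) % Lc (j + d + 1)) + (q * Lc j) % Lc (j + d + 1))
    refine ⟨m, hm, ?_⟩
    intro o ho
    rw [← h o ho]
    have h1 : (q * Lc j + o) % Lc (j + d + 1) = (q * Lc j) % Lc (j + d + 1) + o := by
      obtain ⟨c, hc⟩ := hdvd j (j + d + 1) (by omega)
      have hL0 : 0 < Lc j := by omega
      rw [hc, mul_comm q, Nat.mul_mod_mul_left, Nat.mod_mul, Nat.mul_add_mod_self_left, Nat.mod_eq_of_lt ho,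
        Nat.mul_add_div hL0, Nat.div_eq_of_lt ho, Nat.add_zero, Nat.add_comm]
    show Fm Lc φ (j + d + 1) (Qm Lc φ (j + d + 1) (C + o) (q * Lc j + o)) (q * Lc j + o) = _
    congr 1
    unfold Qm
    rw [h1, Nat.add_sub_add_right]
    exact (Nat.add_assoc _ _ _).symm

end

/-- the scale which is used at `n` -/
noncomputable def Jn (Lc : ℕ → ℕ) (n : ℕ) : ℕ := sSup {J | Lc J ≤ n}

lemma Jn_bdd {Lc : ℕ → ℕ} (h : ∀ j, j < Lc j) (n : ℕ) : BddAbove {J | Lc J ≤ n} :=
  ⟨n, fun J hJ => ((h J).le).trans hJ⟩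

lemma Jn_ge {Lc : ℕ → ℕ} (h : ∀ j, j < Lc j) {n j : ℕ} (hj : Lc j ≤ n) : j ≤ Jn Lc n :=
  le_csSup (Jn_bdd h n) hj

lemma Jn_block {Lc : ℕ → ℕ} (hmono : Monotone Lc) (hdvd : ∀ i j, i ≤ j → Lc i ∣ Lc j)
    {j q o : ℕ} (hq : 1 ≤ q) (ho : o < Lc j) : Jn Lc (q * Lc j + o) = Jn Lc (q * Lc j) := by
  unfold Jn
  congr 1
  ext J
  simp only [Set.mem_ofPred_eq]
  constructor
  · intro h
    rcases le_total J j with hJ | hJ
    · exact (hmono hJ).trans (Nat.le_mul_of_pos_left _ (by omega))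
    · obtain ⟨c, hc⟩ := hdvd j J hJ
      rw [hc] at h ⊢
      have h1 : Lc j * c < Lc j * (q + 1) := by
        calc Lc j * c ≤ q * Lc j + o := h
          _ < q * Lc j + Lc j := by omega
          _ = Lc j * (q + 1) := by ring
      have h2 : c < q + 1 := lt_of_mul_lt_mul_left h1 (Nat.zero_le _)
      rw [mul_comm q]
      exact Nat.mul_le_mul_left _ (by omega)
  · intro h; omega

lemma words_of_blocks {A : Type*} (c : ℕ → A) {Λ L : ℕ} (hL : 0 < L) (S : Finset ℕ) (W : ℕ → ℕ → A)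
    (h : ∀ q, 1 ≤ q → ∃ m ∈ S, ∀ o < L, c (q * L + o) = W m o) :
    HasWords c Λ (L * (S.card + 1) ^ (Λ / L + 2)) := by
  classical
  choose! mm hmS hm using h
  let code : ℕ → Option ℕ := fun q => if q = 0 then none else some (mm q)
  have h1 := hasWords_of_data (a := c) (L := Λ)
    (fun n => (n % L, fun t : Fin (Λ / L + 2) => code (n / L + t)))
    (range L ×ˢ Fintype.piFinset (fun _ : Fin (Λ / L + 2) => Finset.insertNone S)) ?_ ?_
  · refine h1.mono (le_of_eq ?_)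
    rw [card_product, card_range, Fintype.card_piFinset]
    simp [Finset.card_insertNone]
  · intro n
    simp only [mem_product, mem_range, Fintype.mem_piFinset]
    refine ⟨Nat.mod_lt _ hL, fun t => ?_⟩
    by_cases hq : n / L + t = 0
    · simp [code, hq]
    · simp only [code, hq, if_false]
      rw [Finset.some_mem_insertNone]
      exact hmS _ (Nat.one_le_iff_ne_zero.2 hq)
  · intro n m hnm i hi
    simp only [Prod.mk.injEq] at hnm
    obtain ⟨e1, e2⟩ := hnm
    have hx : (n % L + i) / L < Λ / L + 2 := by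
      have h3 : (n % L + i) / L ≤ (L + Λ) / L := by
        apply Nat.div_le_div_right
        have := Nat.mod_lt n hL
        omega
      rw [Nat.add_div_left _ hL] at h3
      omega
    have e3 := congrFun e2 ⟨(n % L + i) / L, hx⟩
    simp only at e3
    have k1 : n + i = (n / L + (n % L + i) / L) * L + (n % L + i) % L := by
      have a1 := Nat.div_add_mod n L
      have a2 := Nat.div_add_mod (n % L + i) L
      have a3 : (n / L + (n % L + i) / L) * L = L * (n / L) + L * ((n % L + i) / L) := by ring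
      omega
    have k2 : m + i = (m / L + (n % L + i) / L) * L + (n % L + i) % L := by
      rw [e1]
      have a1 := Nat.div_add_mod m L
      have a2 := Nat.div_add_mod (m % L + i) L
      have a3 : (m / L + (m % L + i) / L) * L = L * (m / L) + L * ((m % L + i) / L) := by ring
      omega
    have ho : (n % L + i) % L < L := Nat.mod_lt _ hL
    by_cases hq : n / L + (n % L + i) / L = 0
    · have hq' : m / L + (n % L + i) / L = 0 := by
        by_contra hne
        simp only [code, hq, if_true, hne, if_false] at e3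
        exact absurd e3 (by simp)
      rw [k1, k2, hq, hq']
    · have hq' : m / L + (n % L + i) / L ≠ 0 := by
        intro h0
        simp only [code, h0, if_true, hq, if_false] at e3
        exact absurd e3 (by simp)
      simp only [code, hq', if_false, hq, Option.some.injEq] at e3
      rw [k1, k2, hm _ (Nat.one_le_iff_ne_zero.2 hq) _ ho, hm _ (Nat.one_le_iff_ne_zero.2 hq') _ ho, e3]

/-- **Quantisation.** -/
theorem exists_quant (α : ℕ → ℂ) (h : AZ α) {ε : ℝ} (hε : 0 < ε) :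
    ∃ c : ℕ → ℂ, (Set.range c).Finite ∧ (∀ n, ‖α n - c n‖ ≤ ε) ∧ ZE c := by
  classical
  have hη : ∀ j : ℕ, 0 < ε / 2 * (1 / 2) ^ j := fun j => by positivity
  have hδ : ∀ j : ℕ, 0 < 1 / ((j : ℝ) + 1) := fun j => by positivity
  choose T hT using fun j : ℕ => h _ (hη j) _ (hδ j)
  obtain ⟨Lc, hLc0, hLcs⟩ : ∃ Lc : ℕ → ℕ, Lc 0 = max 1 (T 0) ∧
      ∀ j, Lc (j + 1) = Lc j * (T (j + 1) + 2) :=
    ⟨fun j => Nat.rec (max 1 (T 0)) (fun i x => x * (T (i + 1) + 2)) j, rfl, fun j => rfl⟩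
  have hpos : ∀ j, 0 < Lc j := by
    intro j
    induction j with
    | zero => rw [hLc0]; omega
    | succ j ih => rw [hLcs]; positivity
  have hgeT : ∀ j, T j ≤ Lc j := by
    intro j
    cases j with
    | zero => rw [hLc0]; omega
    | succ j =>
      rw [hLcs]
      calc T (j + 1) ≤ 1 * (T (j + 1) + 2) := by omega
        _ ≤ Lc j * (T (j + 1) + 2) := Nat.mul_le_mul_right _ (hpos j)
  have hsucc : ∀ j, Lc j ∣ Lc (j + 1) := fun j => by rw [hLcs]; exact Dvd.intro _ rfl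
  have hdvd : ∀ i j, i ≤ j → Lc i ∣ Lc j := by
    intro i j hij
    induction hij with
    | refl => exact dvd_rfl
    | step _ ih => exact ih.trans (hsucc _)
  have hmono : Monotone Lc := fun i j hij => Nat.le_of_dvd (hpos j) (hdvd i j hij)
  have hgt : ∀ j, j < Lc j := by
    intro j
    induction j with
    | zero => exact hpos 0
    | succ j ih =>
      rw [hLcs]
      have : Lc j * 2 ≤ Lc j * (T (j + 1) + 2) := Nat.mul_le_mul_left _ (by omega)
      omega
  choose S hScard hS using fun j : ℕ => hT j (Lc j) (hgeT j)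
  choose φ hφS hφ using hS
  let c : ℕ → ℂ := fun n => α (Fm Lc φ (Jn Lc n + 1) n n)
  have hblock0 : ∀ n, ∃ m ∈ S 0, ∃ o < Lc 0, c n = α (m + o) := by
    intro n
    obtain ⟨m, hm, h1⟩ := Fm_block hdvd hφS 0 (n / Lc 0) (Jn Lc n) (n / Lc 0 * Lc 0)
    have h2 := h1 (n % Lc 0) (Nat.mod_lt _ (hpos 0))
    have h3 : n / Lc 0 * Lc 0 + n % Lc 0 = n := by rw [mul_comm]; exact Nat.div_add_mod n _
    rw [h3, Nat.zero_add] at h2
    refine ⟨m, hm, n % Lc 0, Nat.mod_lt _ (hpos 0), ?_⟩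
    show α (Fm Lc φ (Jn Lc n + 1) n n) = _
    rw [h2]
    rfl
  refine ⟨c, ?_, ?_, ?_⟩
  · apply Set.Finite.subset (((S 0 ×ˢ range (Lc 0)).image (fun x => α (x.1 + x.2))).finite_toSet)
    rintro _ ⟨n, rfl⟩
    obtain ⟨m, hm, o, ho, h1⟩ := hblock0 n
    rw [mem_coe, mem_image]
    exact ⟨(m, o), mem_product.2 ⟨hm, mem_range.2 ho⟩, h1.symm⟩
  · intro n
    have h1 := Fm_err hpos hdvd α (fun j => ε / 2 * (1 / 2) ^ j) hφ n (Jn Lc n + 1) n
      (fun i _ => Nat.mod_le _ _)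
    refine h1.trans ?_
    rw [← mul_sum]
    have := sum_geometric_two_le (Jn Lc n + 1)
    calc ε / 2 * ∑ i ∈ range (Jn Lc n + 1), (1 / 2 : ℝ) ^ i ≤ ε / 2 * 2 :=
          mul_le_mul_of_nonneg_left this (by positivity)
      _ = ε := by ring
  · have hwords : ∀ j Λ : ℕ, HasWords c Λ (Lc j * ((S j).card + 1) ^ (Λ / Lc j + 2)) := by
      intro j Λ
      apply words_of_blocks c (hpos j) (S j) (fun m o => α (Fm Lc φ j (m + o) o))
      intro q hq
      have hJ : j ≤ Jn Lc (q * Lc j) := Jn_ge hgt (Nat.le_mul_of_pos_left _ (by omega))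
      obtain ⟨d, hd⟩ := Nat.exists_eq_add_of_le hJ
      obtain ⟨m, hm, h1⟩ := Fm_block hdvd hφS j q d (q * Lc j)
      refine ⟨m, hm, ?_⟩
      intro o ho
      show α (Fm Lc φ (Jn Lc (q * Lc j + o) + 1) (q * Lc j + o) (q * Lc j + o)) = _
      rw [Jn_block hmono hdvd hq ho, hd, h1 o ho]
    intro δ hδ0
    obtain ⟨j, hj⟩ := exists_nat_gt (2 / δ)
    have hj1 : 1 / ((j : ℝ) + 1) ≤ δ / 2 := by
      rw [div_lt_iff₀ hδ0] at hj
      rw [div_le_iff₀ (by positivity)]
      nlinarith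
    have hlim : ∀ᶠ Λ : ℕ in atTop, (Lc j : ℝ) * Real.exp (2 * Lc j) ≤ Real.exp (δ / 2 * Λ) := by
      have : Tendsto (fun Λ : ℕ => Real.exp (δ / 2 * Λ)) atTop atTop := by
        apply Real.tendsto_exp_atTop.comp
        exact Tendsto.const_mul_atTop (by positivity) tendsto_natCast_atTop_atTop
      exact this.eventually_ge_atTop _
    filter_upwards [hlim] with Λ hΛ
    refine ⟨_, ?_, hwords j Λ⟩
    push_cast
    have h1 : ((S j).card + 1 : ℝ) ^ (Λ / Lc j + 2) ≤ Real.exp (1 / ((j : ℝ) + 1) * (Λ + 2 * Lc j)) := by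
      calc ((S j).card + 1 : ℝ) ^ (Λ / Lc j + 2)
          ≤ (Real.exp (1 / ((j : ℝ) + 1) * (Lc j : ℝ))) ^ (Λ / Lc j + 2) :=
            pow_le_pow_left₀ (by positivity) (hScard j) _
        _ = Real.exp (1 / ((j : ℝ) + 1) * (Lc j * ((Λ / Lc j + 2 : ℕ) : ℝ))) := by
            rw [← Real.exp_nat_mul]
            congr 1
            ring
        _ ≤ _ := by
            apply Real.exp_le_exp.2
            apply mul_le_mul_of_nonneg_left _ (hδ j).le
            push_cast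
            have : (Lc j : ℝ) * ((Λ / Lc j : ℕ) : ℝ) ≤ Λ := by exact_mod_cast Nat.mul_div_le Λ (Lc j)
            linarith
    calc (Lc j : ℝ) * ((S j).card + 1 : ℝ) ^ (Λ / Lc j + 2)
        ≤ (Lc j : ℝ) * Real.exp (1 / ((j : ℝ) + 1) * (Λ + 2 * Lc j)) :=
          mul_le_mul_of_nonneg_left h1 (Nat.cast_nonneg _)
      _ ≤ (Lc j : ℝ) * (Real.exp (δ / 2 * Λ) * Real.exp (2 * Lc j)) := by
          apply mul_le_mul_of_nonneg_left _ (Nat.cast_nonneg _)
          rw [← Real.exp_add]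
          apply Real.exp_le_exp.2
          have h2 : 1 / ((j : ℝ) + 1) ≤ 1 := by
            rw [div_le_one (by positivity)]; linarith [Nat.cast_nonneg (α := ℝ) j]
          have h3 : (0 : ℝ) ≤ Λ := Nat.cast_nonneg _
          have h4 : (0 : ℝ) ≤ 2 * Lc j := by positivity
          nlinarith
      _ = ((Lc j : ℝ) * Real.exp (2 * Lc j)) * Real.exp (δ / 2 * Λ) := by ring
      _ ≤ Real.exp (δ / 2 * Λ) * Real.exp (δ / 2 * Λ) :=
          mul_le_mul_of_nonneg_right hΛ (Real.exp_pos _).le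
      _ = Real.exp (δ * Λ) := by
          rw [← Real.exp_add]; congr 1; ring

end Pool.Agent.Q132.TS
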