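import Mathlib
import Pool.Agent.Q132.TS.B

/-!
# Topological entropy and words (helper132)
-/

set_option autoImplicit false

namespace Pool.Agent.Q132.TS

open Finset Filter Topology Uniformity Dynamics
open scoped ENNReal

/-- observables of systems of zero entropy -/
theorem az_of_entropy {X : Type*} [MetricSpace X] [CompactSpace X] {T : X → X}
    (hE : coverEntropy T Set.univ = 0) {f : X → ℂ} (hf : Continuous f) (x : X) :
    AZ (fun n => f (T^[n] x)) := by
  classical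
  intro η hη δ hδ
  let U : SetRel X X := {p | dist (f p.1) (f p.2) < η / 2}
  have hU : U ∈ 𝓤 X := by
    have h1 := CompactSpace.uniformContinuous_of_continuous hf
    have h2 := (Metric.uniformContinuous_iff.1 h1) (η / 2) (by positivity)
    obtain ⟨r, hr, h3⟩ := h2
    exact Metric.mem_uniformity_dist.2 ⟨r, hr, fun {a b} hab => h3 hab⟩
  have h1 : coverEntropyEntourage T Set.univ U < ((δ / 4 : ℝ) : EReal) := by
    refine (coverEntropyEntourage_le_coverEntropy T Set.univ hU).trans_lt ?_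
    rw [hE]
    exact_mod_cast (by positivity : (0 : ℝ) < δ / 4)
  have h2 := ExpGrowth.eventually_le_exp h1
  have h3 : ∀ᶠ n : ℕ in atTop, Real.exp (δ / 4 * n) + 1 ≤ Real.exp (δ * n) := by
    have : Tendsto (fun n : ℕ => Real.exp (δ / 4 * n)) atTop atTop := by
      apply Real.tendsto_exp_atTop.comp
      exact Tendsto.const_mul_atTop (by positivity) tendsto_natCast_atTop_atTop
    filter_upwards [this.eventually_ge_atTop 2] with n hn
    have h4 : Real.exp (δ * n) ≥ Real.exp (δ / 4 * n) * Real.exp (δ / 4 * n) := by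
      rw [← Real.exp_add]
      apply Real.exp_le_exp.2
      have : (0 : ℝ) ≤ n := Nat.cast_nonneg _
      nlinarith
    nlinarith
  obtain ⟨L₀, hL₀⟩ := eventually_atTop.1 (h2.and h3)
  refine ⟨L₀, fun L hL => ?_⟩
  obtain ⟨h4, h5⟩ := hL₀ L hL
  have h6 : ((δ / 4 : ℝ) : EReal) * (L : EReal) = ((δ / 4 * L : ℝ) : EReal) := by
    push_cast; rfl
  rw [h6, EReal.exp_coe] at h4
  have hfin : coverMincard T Set.univ U L < ⊤ := by
    by_contra htop
    rw [not_lt, top_le_iff] at htop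
    rw [htop] at h4
    simp at h4
  obtain ⟨s, hs, hcard⟩ := (coverMincard_finite_iff T Set.univ U L).1 hfin
  rw [← hcard] at h4
  have hcard2 : (s.card : ℝ) ≤ Real.exp (δ / 4 * L) := by
    have h7 : ((s.card : ℝ≥0∞)) ≤ ENNReal.ofReal (Real.exp (δ / 4 * L)) := by simpa using h4
    rw [ENNReal.le_ofReal_iff_toReal_le (by simp) (Real.exp_pos _).le] at h7
    simpa using h7
  let pos : X → ℕ := fun y => if h : ∃ n, (T^[n] x, y) ∈ dynEntourage T U L then h.choose else 0
  refine ⟨s.image pos, ?_, ?_⟩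
  · have : ((s.image pos).card : ℝ) ≤ s.card := by exact_mod_cast card_image_le
    linarith
  · intro n
    obtain ⟨y, hy, hny⟩ := hs (Set.mem_univ (T^[n] x))
    refine ⟨pos y, mem_image_of_mem _ hy, ?_⟩
    have hex : ∃ n, (T^[n] x, y) ∈ dynEntourage T U L := ⟨n, hny⟩
    have hm : (T^[pos y] x, y) ∈ dynEntourage T U L := by
      simp only [pos, dif_pos hex]
      exact hex.choose_spec
    intro i hi
    have k1 := (mem_dynEntourage.1 hny) i hi
    have k2 := (mem_dynEntourage.1 hm) i hi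
    rw [← Function.iterate_add_apply, Nat.add_comm i] at k1 k2
    have k1' : dist (f (T^[n + i] x)) (f (T^[i] y)) < η / 2 := k1
    have k2' : dist (f (T^[pos y + i] x)) (f (T^[i] y)) < η / 2 := k2
    have k3 := dist_triangle_right (f (T^[n + i] x)) (f (T^[pos y + i] x)) (f (T^[i] y))
    rw [dist_eq_norm] at k3
    linarith

/-- the shift -/
def sh (y : ℕ → Bool) : ℕ → Bool := fun n => y (n + 1)

lemma sh_iter (y : ℕ → Bool) (k n : ℕ) : sh^[k] y n = y (n + k) := by
  induction k generalizing y with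
  | zero => rfl
  | succ k ih =>
    rw [Function.iterate_succ_apply, ih]
    show y (n + k + 1) = _
    rw [Nat.add_assoc]

lemma sh_cont : Continuous sh := continuous_pi (fun n => continuous_apply (n + 1))

lemma cyl_mem (U : SetRel (ℕ → Bool) (ℕ → Bool)) (hU : U ∈ 𝓤 (ℕ → Bool)) :
    ∃ k : ℕ, {p : (ℕ → Bool) × (ℕ → Bool) | ∀ i < k, p.1 i = p.2 i} ⊆ U := by
  classical
  rw [Pi.uniformity] at hU
  have h1 : ∀ i : ℕ, Filter.comap (fun a : (ℕ → Bool) × (ℕ → Bool) => (a.1 i, a.2 i)) (𝓤 Bool) =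
      𝓟 {p : (ℕ → Bool) × (ℕ → Bool) | p.1 i = p.2 i} := by
    intro i
    rw [DiscreteUniformity.eq_principal_setRelId, Filter.comap_principal]
    rfl
  simp only [h1] at hU
  obtain ⟨t, ht, hsub⟩ := (Filter.hasBasis_iInf_principal_finite _).mem_iff.1 hU
  obtain ⟨k, hk⟩ := ht.bddAbove
  refine ⟨k + 1, fun p hp => hsub ?_⟩
  rw [Set.mem_iInter₂]
  intro i hi
  exact hp i (Nat.lt_succ_of_le (hk hi))

/-- the orbit closure -/
def Xb (b : ℕ → Bool) : Set (ℕ → Bool) := closure (Set.range (fun n => sh^[n] b))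

lemma Xb_maps (b : ℕ → Bool) : Set.MapsTo sh (Xb b) (Xb b) := by
  apply Set.MapsTo.closure _ sh_cont
  rintro _ ⟨n, rfl⟩
  exact ⟨n + 1, Function.iterate_succ_apply' _ _ _⟩

lemma entropy_Xb {b : ℕ → Bool} (hb : ZE b) : coverEntropy sh (Xb b) ≤ 0 := by
  classical
  unfold Xb
  rw [coverEntropy_closure sh_cont]
  unfold coverEntropy
  apply iSup₂_le
  intro U hU
  obtain ⟨k, hk⟩ := cyl_mem U hU
  refine (coverEntropyEntourage_antitone sh _ hk).trans ?_
  apply le_of_forall_gt_imp_ge_of_dense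
  intro a ha
  obtain ⟨q, hq0, hqa⟩ := EReal.lt_iff_exists_real_btwn.1 ha
  have hq : 0 < q := by exact_mod_cast hq0
  refine le_trans ?_ hqa.le
  apply Eventually.expGrowthSup_le
  have h1 := hb (q / 2) (by positivity)
  have h2 : ∀ᶠ n : ℕ in atTop, ∃ K : ℕ, (K : ℝ) ≤ Real.exp (q / 2 * ((n + k : ℕ) : ℝ)) ∧ HasWords b (n + k) K :=
    (tendsto_add_atTop_nat k).eventually h1
  filter_upwards [h2, eventually_ge_atTop k] with n hn hnk
  obtain ⟨K, hK, S, hS, hw⟩ := hn
  have hcov : IsDynCoverOf sh (Set.range (fun n => sh^[n] b))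
      {p : (ℕ → Bool) × (ℕ → Bool) | ∀ i < k, p.1 i = p.2 i} n (S.image (fun m => sh^[m] b) : Finset (ℕ → Bool)) := by
    rintro _ ⟨m', rfl⟩
    obtain ⟨m, hm, h3⟩ := hw m'
    refine ⟨sh^[m] b, ?_, ?_⟩
    · rw [mem_coe]; exact mem_image_of_mem _ hm
    · apply mem_dynEntourage.2
      intro j hj i hi
      show sh^[j] (sh^[m'] b) i = sh^[j] (sh^[m] b) i
      rw [sh_iter, sh_iter, sh_iter, sh_iter]
      have := h3 (i + j) (by omega)
      rwa [Nat.add_comm m', Nat.add_comm m] at this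
  have h3 := hcov.coverMincard_le_card
  have h4 : (q : EReal) * (n : EReal) = ((q * n : ℝ) : EReal) := by push_cast; rfl
  rw [h4, EReal.exp_coe]
  have h5 : ((S.image (fun m => sh^[m] b)).card : ℝ) ≤ Real.exp (q * n) := by
    calc ((S.image (fun m => sh^[m] b)).card : ℝ) ≤ S.card := by exact_mod_cast card_image_le
      _ ≤ K := by exact_mod_cast hS
      _ ≤ Real.exp (q / 2 * ((n + k : ℕ) : ℝ)) := hK
      _ ≤ Real.exp (q * n) := by
        apply Real.exp_le_exp.2
        have : ((n + k : ℕ) : ℝ) ≤ 2 * n := by push_cast; have : (k : ℝ) ≤ n := by exact_mod_cast hnk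
                                               linarith
        nlinarith
  calc ((coverMincard sh (Set.range (fun n => sh^[n] b))
        {p : (ℕ → Bool) × (ℕ → Bool) | ∀ i < k, p.1 i = p.2 i} n : ℕ∞) : ℝ≥0∞)
      ≤ (((S.image (fun m => sh^[m] b)).card : ℕ∞) : ℝ≥0∞) := ENat.toENNReal_mono h3
    _ = ENNReal.ofReal ((S.image (fun m => sh^[m] b)).card : ℝ) := by simp
    _ ≤ _ := ENNReal.ofReal_le_ofReal h5

/-- `b` is a Toeplitz sequence, all periods are powers of two -/
def Tz {A : Type*} (b : ℕ → A) : Prop := ∀ n, ∃ j, ∀ m, b (n + m * 2 ^ j) = b n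

lemma Tz.common {A : Type*} {b : ℕ → A} (hb : Tz b) (L : ℕ) :
    ∃ j, ∀ n < L, ∀ m, b (n + m * 2 ^ j) = b n := by
  choose j hj using hb
  refine ⟨(range L).sup j, fun n hn m => ?_⟩
  have h1 : j n ≤ (range L).sup j := le_sup (f := j) (mem_range.2 hn)
  obtain ⟨c, hc⟩ := pow_dvd_pow 2 h1
  rw [hc, mul_comm (2 ^ j n), ← mul_assoc]
  exact hj n _

lemma Tz.dense {b : ℕ → Bool} (hb : Tz b) (y : Xb b) :
    Dense (Set.range (fun n => ((Xb_maps b).restrict sh (Xb b) (Xb b))^[n] y)) := by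
  intro z
  rw [mem_closure_iff_nhds]
  intro V hV
  -- a cylinder around `z`
  rw [mem_nhds_subtype] at hV
  obtain ⟨W, hW, hWV⟩ := hV
  obtain ⟨U, hU, hUW⟩ := UniformSpace.mem_nhds_iff.1 hW
  obtain ⟨k, hk⟩ := cyl_mem U hU
  -- a point of the orbit of `b` in the cylinder
  have hcyl : ∀ (w : ℕ → Bool) (_ : w ∈ Xb b) (K : ℕ), ∃ n, ∀ i < K, w i = b (i + n) := by
    intro w hw K
    have hopen : {v : ℕ → Bool | ∀ i < K, v i = w i} ∈ 𝓝 w := by
      have : {v : ℕ → Bool | ∀ i < K, v i = w i} = ⋂ i ∈ (Finset.range K), {v : ℕ → Bool | v i = w i} := by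
        ext v; simp
      rw [this]
      apply (Filter.biInter_finset_mem _).2
      intro i _
      have h1 : {v : ℕ → Bool | v i = w i} = (fun v : ℕ → Bool => v i) ⁻¹' {w i} := rfl
      rw [h1]
      exact (continuous_apply i).continuousAt.preimage_mem_nhds (by simp)
    obtain ⟨_, h1, n, rfl⟩ := mem_closure_iff_nhds.1 hw _ hopen
    refine ⟨n, fun i hi => ?_⟩
    have h2 : sh^[n] b i = w i := h1 i hi
    rw [sh_iter] at h2
    exact h2.symm
  obtain ⟨n0, hn0⟩ := hcyl z.1 z.2 k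
  obtain ⟨j, hj⟩ := hb.common (n0 + k)
  obtain ⟨n', hn'⟩ := hcyl y.1 y.2 (2 ^ j + n0 + k)
  have hP : 0 < 2 ^ j := by positivity
  -- the shift to a multiple of the period
  obtain ⟨t, ht, m, hm⟩ : ∃ t < 2 ^ j, ∃ m, n' + t = m * 2 ^ j := by
    refine ⟨(2 ^ j - n' % 2 ^ j) % 2 ^ j, Nat.mod_lt _ hP, ?_⟩
    have h0 : (n' + (2 ^ j - n' % 2 ^ j) % 2 ^ j) % 2 ^ j = 0 := by
      rw [Nat.add_mod, Nat.mod_mod, ← Nat.add_mod]
      have h1 := Nat.mod_lt n' hP
      have h2 : n' + (2 ^ j - n' % 2 ^ j) = 2 ^ j * (n' / 2 ^ j) + 2 ^ j := by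
        have := Nat.div_add_mod n' (2 ^ j)
        omega
      rw [h2]; simp
    obtain ⟨m, hm⟩ := Nat.dvd_of_mod_eq_zero h0
    exact ⟨m, by rw [hm, mul_comm]⟩
  have hit : ∀ n, (((Xb_maps b).restrict sh (Xb b) (Xb b))^[n] y).1 = sh^[n] y.1 := by
    intro n
    induction n with
    | zero => rfl
    | succ n ih =>
      rw [Function.iterate_succ_apply', Function.iterate_succ_apply', ← ih]
      rfl
  refine ⟨((Xb_maps b).restrict sh (Xb b) (Xb b))^[n0 + t] y, ?_, ⟨n0 + t, rfl⟩⟩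
  apply hWV
  show (((Xb_maps b).restrict sh (Xb b) (Xb b))^[n0 + t] y).1 ∈ W
  rw [hit]
  apply hUW
  show (z.1, sh^[n0 + t] y.1) ∈ U
  apply hk
  intro i hi
  show z.1 i = sh^[n0 + t] y.1 i
  rw [sh_iter, hn0 i hi, hn' _ (by omega)]
  have h3 : i + (n0 + t) + n' = (i + n0) + m * 2 ^ j := by rw [← hm]; ring
  rw [h3, hj (i + n0) (by omega) m]

end Pool.Agent.Q132.TS
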