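import Mathlib
import Pool.Agent.Q132.TS.C

/-!
# Orthogonality to systems of zero entropy and to Toeplitz sequences (helper132)
-/

set_option autoImplicit false

namespace Pool.Agent.Q132.TS

open Finset Filter Topology Dynamics

/-- the average with the kernel `κ` -/
noncomputable def Av (κ : ℕ → ℕ → ℂ) (g : ℕ → ℂ) (N : ℕ) : ℂ := ∑ n ∈ Icc 1 N, κ N n * g n

/-- the kernel gives small weight to sets of small density -/
def Good (κ : ℕ → ℕ → ℂ) : Prop := ∃ C : ℝ, 0 ≤ C ∧ ∀ (D : Set ℕ) (ε : ℝ), 0 < ε →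
  (∀ N : ℕ, ((Set.Iio N ∩ D).ncard : ℝ) ≤ ε * N) →
    ∀ᶠ N : ℕ in atTop, ∑ n ∈ Icc 1 N, D.indicator (fun n => ‖κ N n‖) n ≤ C * ε

/-- the indicator function of the places where `b` is true -/
def ind (b : ℕ → Bool) (n : ℕ) : ℂ := if b n then 1 else 0

/-- the sequence `a` on one residue class -/
def res (j r : ℕ) (a : ℕ → Bool) (n : ℕ) : Bool := a n && decide (n % 2 ^ j = r)

lemma Av_add (κ : ℕ → ℕ → ℂ) {ι : Type*} (s : Finset ι) (g : ι → ℕ → ℂ) (N : ℕ) :
    Av κ (fun n => ∑ i ∈ s, g i n) N = ∑ i ∈ s, Av κ (g i) N := by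
  unfold Av
  rw [sum_comm]
  apply sum_congr rfl
  intro n _
  rw [mul_sum]

lemma Av_smul (κ : ℕ → ℕ → ℂ) (v : ℂ) (g : ℕ → ℂ) (N : ℕ) :
    Av κ (fun n => v * g n) N = v * Av κ g N := by
  unfold Av
  rw [mul_sum]
  apply sum_congr rfl
  intro n _
  ring

lemma ncard_eq (N : ℕ) (p : ℕ → Prop) [DecidablePred p] :
    (Set.Iio N ∩ {n | p n}).ncard = ((range N).filter p).card := by
  rw [← Set.ncard_coe_finset]
  congr 1
  ext n
  simp

lemma ncard_eq' (N : ℕ) (D : Set ℕ) [DecidablePred (fun n => n ∈ D)] :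
    (Set.Iio N ∩ D).ncard = ((range N).filter (fun n => n ∈ D)).card := ncard_eq N (fun n => n ∈ D)

lemma close_of_density {κ : ℕ → ℕ → ℂ} {C : ℝ}
    (hC : ∀ (D : Set ℕ) (ε : ℝ), 0 < ε → (∀ N : ℕ, ((Set.Iio N ∩ D).ncard : ℝ) ≤ ε * N) →
      ∀ᶠ N : ℕ in atTop, ∑ n ∈ Icc 1 N, D.indicator (fun n => ‖κ N n‖) n ≤ C * ε)
    (a b : ℕ → Bool) {ε : ℝ} (hε : 0 < ε)
    (h : ∀ N : ℕ, ((Set.Iio N ∩ {n | b n ≠ a n}).ncard : ℝ) ≤ ε * N) :
    ∀ᶠ N : ℕ in atTop, ‖Av κ (ind a) N - Av κ (ind b) N‖ ≤ C * ε := by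
  filter_upwards [hC _ ε hε h] with N hN
  refine le_trans ?_ hN
  unfold Av
  rw [← sum_sub_distrib]
  refine (norm_sum_le _ _).trans (sum_le_sum ?_)
  intro n _
  by_cases hn : b n = a n
  · have : ind a n = ind b n := by unfold ind; rw [hn]
    rw [this, sub_self, norm_zero]
    exact Set.indicator_nonneg (fun _ _ => norm_nonneg _) _
  · rw [Set.indicator_of_mem (show n ∈ {n | b n ≠ a n} from hn), ← mul_sub, norm_mul]
    have : ‖ind a n - ind b n‖ ≤ 1 := by
      unfold ind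
      split_ifs <;> simp
    calc ‖κ N n‖ * ‖ind a n - ind b n‖ ≤ ‖κ N n‖ * 1 := mul_le_mul_of_nonneg_left this (norm_nonneg _)
      _ = _ := mul_one _

lemma tendsto_of_close {F : ℕ → ℂ} {C : ℝ} (hC : 0 ≤ C)
    (h : ∀ ε : ℝ, 0 < ε → ∃ G : ℕ → ℂ, Tendsto G atTop (𝓝 0) ∧ ∀ᶠ N in atTop, ‖F N - G N‖ ≤ C * ε) :
    Tendsto F atTop (𝓝 0) := by
  rw [Metric.tendsto_nhds]
  intro e he
  obtain ⟨G, hG, hc⟩ := h (e / (2 * (C + 1))) (by positivity)
  have h1 := Metric.tendsto_nhds.1 hG (e / 2) (by positivity)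
  filter_upwards [hc, h1] with N h2 h3
  rw [dist_zero_right] at h3 ⊢
  have h4 : C * (e / (2 * (C + 1))) ≤ e / 2 := by
    rw [mul_div_assoc', div_le_div_iff₀ (by positivity) (by norm_num)]
    nlinarith
  calc ‖F N‖ = ‖(F N - G N) + G N‖ := by congr 1; ring
    _ ≤ ‖F N - G N‖ + ‖G N‖ := norm_add_le _ _
    _ < e := by linarith

/-- **Toeplitz sequences suffice.** -/
theorem of_toeplitz {κ : ℕ → ℕ → ℂ} (hκ : Good κ) (Cl : (ℕ → Bool) → Prop)
    (hres : ∀ a j r, Cl a → Cl (res j r a)) (htz : ∀ a s, 1 ≤ s → Cl a → Cl (tz s a)) (j : ℕ)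
    (H : ∀ b : ℕ → Bool, Tz b → Cl b → (∃ r, ∀ n, b n = true → n % 2 ^ j = r) →
      Tendsto (Av κ (ind b)) atTop (𝓝 0)) (a : ℕ → Bool) (ha : Cl a) :
    Tendsto (Av κ (ind a)) atTop (𝓝 0) := by
  obtain ⟨C, hC0, hC⟩ := hκ
  have h1 : ∀ r, Tendsto (Av κ (ind (res j r a))) atTop (𝓝 0) := by
    intro r
    apply tendsto_of_close hC0
    intro ε hε
    obtain ⟨s, hs⟩ := exists_nat_gt (2 / ε)
    have hs1 : 1 ≤ s + j + 1 := by omega
    refine ⟨Av κ (ind (tz (s + j + 1) (res j r a))), ?_, ?_⟩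
    · apply H
      · intro n
        refine ⟨Ex (s + j + 1) (st (s + j + 1) 0 n + 1), fun m => ?_⟩
        exact tz_period hs1 _ n m
      · exact htz _ _ hs1 (hres a j r ha)
      · refine ⟨r, fun n hn => ?_⟩
        unfold tz ad res at hn
        rw [Bool.and_eq_true, decide_eq_true_eq] at hn
        rw [← hn.2]
        symm
        apply Nat.mod_mod_of_dvd
        apply pow_dvd_pow
        have : Ex (s + j + 1) 1 ≤ Ex (s + j + 1) (st (s + j + 1) 0 n + 1) := Ex_mono _ (by omega)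
        simp only [Ex] at this ⊢
        omega
    · apply close_of_density hC _ _ hε
      intro N
      rw [ncard_eq]
      refine (tz_count hs1 (res j r a) N).trans ?_
      apply mul_le_mul_of_nonneg_right _ (Nat.cast_nonneg _)
      rw [div_lt_iff₀ hε] at hs
      rw [div_le_iff₀ (by positivity)]
      have h2 : (s : ℝ) ≤ 2 ^ (s + j + 1) := by
        have : s ≤ 2 ^ (s + j + 1) := (Nat.lt_two_pow_self (n := s)).le.trans
          (Nat.pow_le_pow_right (by norm_num) (by omega))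
        exact_mod_cast this
      nlinarith
  have h2 : Av κ (ind a) = fun N => ∑ r ∈ range (2 ^ j), Av κ (ind (res j r a)) N := by
    funext N
    rw [← Av_add]
    unfold Av
    apply sum_congr rfl
    intro n _
    congr 1
    show ind a n = ∑ i ∈ range (2 ^ j), ind (res j i a) n
    rw [sum_eq_single (n % 2 ^ j)]
    · unfold ind res
      simp
    · intro r _ hr
      unfold ind res
      rw [if_neg]
      simp only [Bool.and_eq_true, decide_eq_true_eq, not_and]
      intro _ h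
      exact hr h.symm
    · intro h
      exact absurd (mem_range.2 (Nat.mod_lt _ (by positivity))) h
  rw [h2]
  have h3 := tendsto_finsetSum (range (2 ^ j)) (fun r _ => h1 r)
  simpa using h3

lemma HasWords.res {a : ℕ → Bool} {L K : ℕ} (h : HasWords a L K) (j r : ℕ) :
    HasWords (res j r a) L (2 ^ j * K) := by
  obtain ⟨S, hS, hφ⟩ := h
  choose φ hφS hφ using hφ
  have h1 := hasWords_of_data (a := TS.res j r a) (L := L) (fun n => (n % 2 ^ j, φ n)) (range (2 ^ j) ×ˢ S)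
    ?_ ?_
  · refine h1.mono ?_
    rw [card_product, card_range]
    exact Nat.mul_le_mul_left _ hS
  · intro n
    exact mem_product.2 ⟨mem_range.2 (Nat.mod_lt _ (by positivity)), hφS n⟩
  · intro n m hnm i hi
    rw [Prod.mk.injEq] at hnm
    unfold TS.res
    have e1 : (n + i) % 2 ^ j = (m + i) % 2 ^ j := by rw [Nat.add_mod, hnm.1, ← Nat.add_mod]
    rw [hφ n i hi, hφ m i hi, hnm.2, e1]

lemma HasWords.map {A B : Type*} {a : ℕ → A} {L K : ℕ} (h : HasWords a L K) (F : A → B) :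
    HasWords (fun n => F (a n)) L K := by
  obtain ⟨S, hS, hφ⟩ := h
  refine ⟨S, hS, fun n => ?_⟩
  obtain ⟨m, hm, h1⟩ := hφ n
  exact ⟨m, hm, fun i hi => by show F (a (n + i)) = F (a (m + i)); rw [h1 i hi]⟩

lemma ZE.map {A B : Type*} {a : ℕ → A} (h : ZE a) (F : A → B) : ZE (fun n => F (a n)) := by
  intro δ hδ
  filter_upwards [h δ hδ] with L hL
  obtain ⟨K, h1, h2⟩ := hL
  exact ⟨K, h1, h2.map F⟩

lemma ev_exp_ge {δ : ℝ} (hδ : 0 < δ) (B : ℝ) : ∀ᶠ n : ℕ in atTop, B ≤ Real.exp (δ * n) := by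
  have : Tendsto (fun n : ℕ => Real.exp (δ * n)) atTop atTop := by
    apply Real.tendsto_exp_atTop.comp
    exact Tendsto.const_mul_atTop hδ tendsto_natCast_atTop_atTop
  exact this.eventually_ge_atTop B

lemma ZE.res {a : ℕ → Bool} (h : ZE a) (j r : ℕ) : ZE (res j r a) := by
  intro δ hδ
  filter_upwards [h (δ / 2) (by positivity), ev_exp_ge (show 0 < δ / 2 by positivity) (2 ^ j)] with L hL h0
  obtain ⟨K, h1, h2⟩ := hL
  refine ⟨2 ^ j * K, ?_, h2.res j r⟩
  push_cast
  calc (2 : ℝ) ^ j * K ≤ Real.exp (δ / 2 * L) * Real.exp (δ / 2 * L) :=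
        mul_le_mul h0 h1 (Nat.cast_nonneg _) (Real.exp_pos _).le
    _ = Real.exp (δ * L) := by rw [← Real.exp_add]; congr 1; ring

lemma ev_cube {δ : ℝ} (hδ : 0 < δ) : ∀ᶠ n : ℕ in atTop, 2 * (n : ℝ) ^ 3 ≤ Real.exp (δ * n) := by
  have h1 : Tendsto (fun x : ℝ => x ^ 3 / Real.exp (δ * x)) atTop (𝓝 0) := by
    have := Real.tendsto_pow_mul_exp_neg_atTop_nhds_zero 3
    have h2 : Tendsto (fun x : ℝ => (1 / δ ^ 3) * ((δ * x) ^ 3 * Real.exp (-(δ * x)))) atTop (𝓝 ((1 / δ ^ 3) * 0)) :=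
      (this.comp (Tendsto.const_mul_atTop hδ tendsto_id)).const_mul _
    rw [mul_zero] at h2
    refine h2.congr (fun x => ?_)
    rw [Real.exp_neg]
    field_simp
  have h2 := h1.comp (tendsto_natCast_atTop_atTop (R := ℝ))
  have h3 := (Metric.tendsto_nhds.1 h2) (1 / 2) (by norm_num)
  filter_upwards [h3] with n hn
  rw [Function.comp_apply, dist_zero_right, Real.norm_eq_abs, abs_of_nonneg (by positivity),
    div_lt_iff₀ (Real.exp_pos _)] at hn
  linarith

lemma ZE.tz {A : Type*} {a : ℕ → A} (h : ZE a) {s : ℕ} (hs : 1 ≤ s) : ZE (tz s a) := by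
  intro δ hδ
  filter_upwards [h (δ / 4) (by positivity), ev_cube (show 0 < δ / 2 by positivity), eventually_ge_atTop 1]
    with L hL h0 hL1
  obtain ⟨K, h1, h2⟩ := hL
  refine ⟨2 * L ^ 3 * K ^ 2, ?_, tz_words' hs a hL1 h2⟩
  push_cast
  calc 2 * (L : ℝ) ^ 3 * (K : ℝ) ^ 2 ≤ Real.exp (δ / 2 * L) * (Real.exp (δ / 4 * L)) ^ 2 :=
        mul_le_mul h0 (pow_le_pow_left₀ (Nat.cast_nonneg _) h1 2) (by positivity) (Real.exp_pos _).le
    _ = Real.exp (δ * L) := by
        rw [← Real.exp_nat_mul, ← Real.exp_add]; congr 1; push_cast; ring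

/-- from sequences of zeros and ones to observables -/
theorem of_bool {κ : ℕ → ℕ → ℂ} (hκ : Good κ)
    (H : ∀ a : ℕ → Bool, ZE a → Tendsto (Av κ (ind a)) atTop (𝓝 0)) (α : ℕ → ℂ) (hα : AZ α) :
    Tendsto (Av κ α) atTop (𝓝 0) := by
  classical
  obtain ⟨C, hC0, hC⟩ := hκ
  apply tendsto_of_close hC0
  intro ε hε
  obtain ⟨c, hfin, hclose, hc⟩ := exists_quant α hα hε
  refine ⟨Av κ c, ?_, ?_⟩
  · have h1 : Av κ c = fun N => ∑ v ∈ hfin.toFinset, v * Av κ (ind (fun n => decide (c n = v))) N := by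
      funext N
      simp_rw [← Av_smul]
      rw [← Av_add]
      unfold Av
      apply sum_congr rfl
      intro n _
      congr 1
      show c n = ∑ i ∈ hfin.toFinset, i * ind (fun n => decide (c n = i)) n
      rw [sum_eq_single (c n)]
      · unfold ind; simp
      · intro v _ hv
        unfold ind
        rw [if_neg (by simpa using hv.symm), mul_zero]
      · intro h
        exact absurd (hfin.mem_toFinset.2 ⟨n, rfl⟩) h
    rw [h1]
    have h2 : ∀ v ∈ hfin.toFinset,
        Tendsto (fun N => v * Av κ (ind (fun n => decide (c n = v))) N) atTop (𝓝 (v * 0)) := by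
      intro v _
      exact (H _ (hc.map (fun z => decide (z = v)))).const_mul v
    have h3 := tendsto_finsetSum _ h2
    simpa using h3
  · have hu := hC Set.univ 1 one_pos (fun N => by
      rw [Set.inter_univ, one_mul, ← Finset.coe_range, Set.ncard_coe_finset, card_range])
    filter_upwards [hu] with N hN
    rw [mul_one] at hN
    unfold Av
    rw [← sum_sub_distrib]
    calc ‖∑ n ∈ Icc 1 N, (κ N n * α n - κ N n * c n)‖
        ≤ ∑ n ∈ Icc 1 N, ‖κ N n * α n - κ N n * c n‖ := norm_sum_le _ _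
      _ ≤ ∑ n ∈ Icc 1 N, Set.univ.indicator (fun n => ‖κ N n‖) n * ε := by
          apply sum_le_sum
          intro n _
          rw [Set.indicator_univ, ← mul_sub, norm_mul]
          exact mul_le_mul_of_nonneg_left (hclose n) (norm_nonneg _)
      _ = (∑ n ∈ Icc 1 N, Set.univ.indicator (fun n => ‖κ N n‖) n) * ε := by rw [sum_mul]
      _ ≤ C * ε := mul_le_mul_of_nonneg_right hN hε.le

/-- the statement of Sarnak's conjecture, with the kernel `κ` and a condition on the systems -/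
def Sar (κ : ℕ → ℕ → ℂ) (Min : Prop) : Prop :=
  ∀ (X : Type) [MetricSpace X] [CompactSpace X] (T : X → X), Continuous T →
    coverEntropy T Set.univ = 0 → (Min → ∀ y, Dense (Set.range (fun n => T^[n] y))) →
    ∀ (f : C(X, ℂ)) (x : X), Tendsto (Av κ (fun n => f (T^[n] x))) atTop (𝓝 0)

instance : IsCountablyGenerated (uniformity Bool) := by
  rw [DiscreteUniformity.eq_principal_setRelId]; infer_instance

theorem toeplitz_of_sar {κ : ℕ → ℕ → ℂ} (H : Sar κ True) (b : ℕ → Bool) (hb : Tz b) (hZ : ZE b) :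
    Tendsto (Av κ (ind b)) atTop (𝓝 0) := by
  have : CompactSpace (Xb b) := isCompact_iff_compactSpace.1 isClosed_closure.isCompact
  have : IsCountablyGenerated (uniformity (ℕ → Bool)) := inferInstance
  have : IsCountablyGenerated (uniformity (Xb b)) := by
    rw [uniformity_subtype]; infer_instance
  let m : MetricSpace (Xb b) := UniformSpace.metricSpace (Xb b)
  have hT : Continuous ((Xb_maps b).restrict sh (Xb b) (Xb b)) := sh_cont.restrict _
  have hmem : b ∈ Xb b := subset_closure ⟨0, rfl⟩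
  have hE : coverEntropy ((Xb_maps b).restrict sh (Xb b) (Xb b)) Set.univ = 0 := by
    apply le_antisymm
    · have := coverEntropy_restrict (Xb_maps b)
      refine le_trans (le_of_eq this) (entropy_Xb hZ)
    · exact coverEntropy_nonneg _ ⟨⟨b, hmem⟩, trivial⟩
  have hf : Continuous (fun y : Xb b => (if y.1 0 then 1 else 0 : ℂ)) := by
    have h1 : Continuous (fun t : Bool => (if t then 1 else 0 : ℂ)) := continuous_of_discreteTopology
    exact h1.comp ((continuous_apply 0).comp continuous_subtype_val)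
  have h1 := H (Xb b) ((Xb_maps b).restrict sh (Xb b) (Xb b)) hT hE (fun _ y => hb.dense y)
    ⟨_, hf⟩ ⟨b, hmem⟩
  refine h1.congr (fun N => ?_)
  unfold Av
  apply sum_congr rfl
  intro n _
  congr 1
  have hit : ∀ n, (((Xb_maps b).restrict sh (Xb b) (Xb b))^[n] ⟨b, hmem⟩).1 = sh^[n] b := by
    intro n
    induction n with
    | zero => rfl
    | succ n ih =>
      rw [Function.iterate_succ_apply', Function.iterate_succ_apply', ← ih]
      rfl
  show (if (((Xb_maps b).restrict sh (Xb b) (Xb b))^[n] ⟨b, hmem⟩).1 0 then 1 else 0 : ℂ) = ind b n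
  rw [hit, sh_iter, Nat.zero_add]
  rfl

theorem sar_of_toeplitz {κ : ℕ → ℕ → ℂ} (hκ : Good κ) (j : ℕ)
    (H : ∀ b : ℕ → Bool, Tz b → ZE b → (∃ r, ∀ n, b n = true → n % 2 ^ j = r) →
      Tendsto (Av κ (ind b)) atTop (𝓝 0)) : Sar κ False := by
  intro X _ _ T _ hE _ f x
  apply of_bool hκ
  · intro a ha
    exact of_toeplitz hκ ZE (fun a j r h => h.res j r) (fun a s hs h => h.tz hs) j H a ha
  · exact az_of_entropy hE f.continuous x

/-! ### The kernels -/

lemma good_cesaro {u : ℕ → ℂ} {B : ℝ} (hu : ∀ n, ‖u n‖ ≤ B) : Good (fun N n => u n / N) := by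
  classical
  have hB : 0 ≤ B := (norm_nonneg _).trans (hu 0)
  refine ⟨2 * B, by positivity, ?_⟩
  intro D ε hε hD
  filter_upwards [eventually_ge_atTop 1] with N hN
  have hN' : (0 : ℝ) < N := by exact_mod_cast hN
  have h1 : ∑ n ∈ Icc 1 N, D.indicator (fun n => ‖u n / (N : ℂ)‖) n ≤
      ∑ n ∈ (Icc 1 N).filter (fun n => n ∈ D), B / N := by
    rw [sum_filter]
    apply sum_le_sum
    intro n _
    by_cases hn : n ∈ D
    · rw [Set.indicator_of_mem hn, if_pos hn, norm_div, Complex.norm_natCast]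
      exact div_le_div_of_nonneg_right (hu n) hN'.le
    · rw [Set.indicator_of_notMem hn, if_neg hn]
  refine h1.trans ?_
  rw [sum_const, nsmul_eq_mul]
  have h2 : (((Icc 1 N).filter (fun n => n ∈ D)).card : ℝ) ≤ ε * (N + 1 : ℕ) := by
    refine le_trans ?_ (hD (N + 1))
    rw [ncard_eq']
    have : (Icc 1 N).filter (fun n => n ∈ D) ⊆ (range (N + 1)).filter (fun n => n ∈ D) := by
      intro n hn
      rw [mem_filter, mem_Icc] at hn
      rw [mem_filter, mem_range]
      exact ⟨by omega, hn.2⟩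
    exact_mod_cast card_le_card this
  have h4 : ((N + 1 : ℕ) : ℝ) ≤ 2 * N := by
    push_cast
    have : (1 : ℝ) ≤ N := by exact_mod_cast hN
    linarith
  calc (((Icc 1 N).filter (fun n => n ∈ D)).card : ℝ) * (B / N)
      ≤ (ε * (2 * N)) * (B / N) := by
        apply mul_le_mul_of_nonneg_right _ (by positivity)
        exact h2.trans (mul_le_mul_of_nonneg_left h4 hε.le)
    _ = 2 * B * ε := by field_simp

lemma log_sum {d : ℕ → ℝ} {ε : ℝ} (h : ∀ N : ℕ, 1 ≤ N → ∑ n ∈ Icc 1 N, d n ≤ 2 * ε * N) :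
    ∀ N : ℕ, 1 ≤ N → ∑ n ∈ Icc 1 N, d n / n ≤
      (∑ n ∈ Icc 1 N, d n) / N + 2 * ε * (∑ n ∈ Icc 1 N, (1 / n : ℝ) - 1) := by
  intro N hN
  induction N, hN using Nat.le_induction with
  | base => simp
  | succ N hN ih =>
    have hN' : (0 : ℝ) < N := by exact_mod_cast hN
    rw [sum_Icc_succ_top (by omega), sum_Icc_succ_top (by omega), sum_Icc_succ_top (by omega)]
    have h1 : (∑ n ∈ Icc 1 N, d n) / N ≤ (∑ n ∈ Icc 1 N, d n) / ((N + 1 : ℕ) : ℝ) +
        2 * ε * (1 / ((N + 1 : ℕ) : ℝ)) := by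
      push_cast
      have h2 := h N hN
      rw [div_add' _ _ _ (by positivity), div_le_div_iff₀ hN' (by positivity)]
      have h3 : 2 * ε * (1 / ((N : ℝ) + 1)) * ((N : ℝ) + 1) = 2 * ε := by field_simp
      rw [h3]
      nlinarith
    rw [add_div]
    linarith

lemma good_log {u : ℕ → ℂ} {B : ℝ} (hu : ∀ n, ‖u n‖ ≤ B) :
    Good (fun N n => u n / n / (Real.log N : ℂ)) := by
  classical
  have hB : 0 ≤ B := (norm_nonneg _).trans (hu 0)
  refine ⟨6 * B, by positivity, ?_⟩
  intro D ε hε hD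
  have hlog : ∀ᶠ N : ℕ in atTop, (1 : ℝ) ≤ Real.log N :=
    (Real.tendsto_log_atTop.comp tendsto_natCast_atTop_atTop).eventually_ge_atTop 1
  filter_upwards [eventually_ge_atTop 1, hlog] with N hN hlogN
  have hN' : (0 : ℝ) < N := by exact_mod_cast hN
  have hlog0 : 0 < Real.log N := by linarith
  have hcount : ∀ M : ℕ, 1 ≤ M → ∑ n ∈ Icc 1 M, D.indicator (fun _ => (1 : ℝ)) n ≤ 2 * ε * M := by
    intro M hM
    have h2 : ∑ n ∈ Icc 1 M, D.indicator (fun _ => (1 : ℝ)) n = (((Icc 1 M).filter (fun n => n ∈ D)).card : ℝ) := by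
      rw [card_filter]
      push_cast
      apply sum_congr rfl
      intro n _
      by_cases hn : n ∈ D
      · rw [Set.indicator_of_mem hn, if_pos hn]
      · rw [Set.indicator_of_notMem hn, if_neg hn]
    rw [h2]
    have h3 : (((Icc 1 M).filter (fun n => n ∈ D)).card : ℝ) ≤ ε * (M + 1 : ℕ) := by
      refine le_trans ?_ (hD (M + 1))
      rw [ncard_eq']
      have : (Icc 1 M).filter (fun n => n ∈ D) ⊆ (range (M + 1)).filter (fun n => n ∈ D) := by
        intro n hn
        rw [mem_filter, mem_Icc] at hn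
        rw [mem_filter, mem_range]
        exact ⟨by omega, hn.2⟩
      exact_mod_cast card_le_card this
    have h4 : ((M + 1 : ℕ) : ℝ) ≤ 2 * M := by
      push_cast
      have : (1 : ℝ) ≤ M := by exact_mod_cast hM
      linarith
    nlinarith
  have h1 : ∑ n ∈ Icc 1 N, D.indicator (fun n => ‖u n / n / (Real.log N : ℂ)‖) n ≤
      (B / Real.log N) * ∑ n ∈ Icc 1 N, D.indicator (fun _ => (1 : ℝ)) n / n := by
    rw [mul_sum]
    apply sum_le_sum
    intro n hn
    rw [mem_Icc] at hn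
    have hn0 : (0 : ℝ) < n := by exact_mod_cast hn.1
    by_cases hnD : n ∈ D
    · rw [Set.indicator_of_mem hnD, Set.indicator_of_mem hnD, norm_div, norm_div, Complex.norm_natCast,
        Complex.norm_real, Real.norm_of_nonneg hlog0.le]
      calc ‖u n‖ / n / Real.log N ≤ B / n / Real.log N := by gcongr; exact hu n
        _ = B / Real.log N * (1 / n) := by field_simp
    · rw [Set.indicator_of_notMem hnD, Set.indicator_of_notMem hnD]; simp
  refine h1.trans ?_
  have h5 := log_sum hcount N hN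
  have h6 : ∑ n ∈ Icc 1 N, (1 / n : ℝ) ≤ 1 + Real.log N := by
    have h7 := harmonic_le_one_add_log N
    have h8 : ((harmonic N : ℚ) : ℝ) = ∑ n ∈ Icc 1 N, (1 / n : ℝ) := by
      rw [harmonic_eq_sum_Icc]; push_cast; simp
    rwa [h8] at h7
  have h9 : ∑ n ∈ Icc 1 N, D.indicator (fun _ => (1 : ℝ)) n / n ≤ 2 * ε + 2 * ε * Real.log N := by
    refine h5.trans ?_
    have h10 : (∑ n ∈ Icc 1 N, D.indicator (fun _ => (1 : ℝ)) n) / N ≤ 2 * ε := by
      rw [div_le_iff₀ hN']; exact hcount N hN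
    nlinarith
  calc (B / Real.log N) * ∑ n ∈ Icc 1 N, D.indicator (fun _ => (1 : ℝ)) n / n
      ≤ (B / Real.log N) * (2 * ε + 2 * ε * Real.log N) :=
        mul_le_mul_of_nonneg_left h9 (by positivity)
    _ ≤ (B / Real.log N) * (4 * ε * Real.log N) := by
        apply mul_le_mul_of_nonneg_left _ (by positivity)
        nlinarith
    _ = 4 * B * ε := by field_simp
    _ ≤ 6 * B * ε := by nlinarith [mul_nonneg hB hε.le]

end Pool.Agent.Q132.TS
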