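import Mathlib
import Pool.Agent.Q132.TS.D

/-!
# Definitions and conversions for the final statements (helper132)
-/

set_option autoImplicit false

namespace Pool.Agent.Q132.TS

open Finset Filter Topology Dynamics

/-- the set of the words of length `L` of `a` -/
def wordSet {A : Type*} (a : ℕ → A) (L : ℕ) : Set (Fin L → A) := Set.range (fun n => fun i : Fin L => a (n + i))

lemma wordSet_finite {A : Type*} {a : ℕ → A} (h : (Set.range a).Finite) (L : ℕ) : (wordSet a L).Finite := by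
  apply Set.Finite.subset (Set.Finite.pi' (fun _ : Fin L => h))
  rintro _ ⟨n, rfl⟩ i
  exact ⟨n + i, rfl⟩

lemma hasWords_iff {A : Type*} {a : ℕ → A} (h : (Set.range a).Finite) (L K : ℕ) :
    HasWords a L K ↔ (wordSet a L).ncard ≤ K := by
  classical
  have hfin := wordSet_finite h L
  constructor
  · rintro ⟨S, hS, hw⟩
    have hsub : wordSet a L ⊆ ((S.image (fun m => fun i : Fin L => a (m + i)) : Finset (Fin L → A)) :
        Set (Fin L → A)) := by
      rintro _ ⟨n, rfl⟩
      obtain ⟨m, hm, h1⟩ := hw n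
      rw [mem_coe, mem_image]
      exact ⟨m, hm, funext fun i => (h1 i i.2).symm⟩
    calc (wordSet a L).ncard ≤ _ := Set.ncard_le_ncard hsub (Finset.finite_toSet _)
      _ = (S.image (fun m => fun i : Fin L => a (m + i))).card := Set.ncard_coe_finset _
      _ ≤ S.card := card_image_le
      _ ≤ K := hS
  · intro hK
    have h1 := hasWords_of_data (a := a) (L := L) (fun n => (fun i : Fin L => a (n + i))) hfin.toFinset
      (fun n => hfin.mem_toFinset.2 ⟨n, rfl⟩)
      (fun n m hnm i hi => congrFun hnm ⟨i, hi⟩)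
    refine h1.mono ?_
    rwa [← Set.ncard_eq_toFinset_card _ hfin]

lemma ze_iff {A : Type*} {a : ℕ → A} (h : (Set.range a).Finite) :
    ZE a ↔ Tendsto (fun L : ℕ => Real.log ((wordSet a L).ncard : ℝ) / L) atTop (𝓝 0) := by
  constructor
  · intro hZ
    rw [Metric.tendsto_nhds]
    intro e he
    filter_upwards [hZ (e / 2) (by positivity), eventually_ge_atTop 1] with L hL hL1
    obtain ⟨K, h1, h2⟩ := hL
    rw [hasWords_iff h] at h2
    have hL0 : (0 : ℝ) < L := by exact_mod_cast hL1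
    have h3 : (0 : ℝ) ≤ Real.log ((wordSet a L).ncard : ℝ) := Real.log_natCast_nonneg _
    have h4 : Real.log ((wordSet a L).ncard : ℝ) ≤ e / 2 * L := by
      rcases Nat.eq_zero_or_pos (wordSet a L).ncard with h0 | h0
      · rw [h0]; simp; positivity
      · have : ((wordSet a L).ncard : ℝ) ≤ Real.exp (e / 2 * L) :=
          le_trans (by exact_mod_cast h2) h1
        calc Real.log ((wordSet a L).ncard : ℝ) ≤ Real.log (Real.exp (e / 2 * L)) :=
              Real.log_le_log (by exact_mod_cast h0) this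
          _ = e / 2 * L := Real.log_exp _
    rw [dist_zero_right, Real.norm_of_nonneg (by positivity), div_lt_iff₀ hL0]
    nlinarith
  · intro hT δ hδ
    filter_upwards [(Metric.tendsto_nhds.1 hT) δ hδ, eventually_ge_atTop 1] with L hL hL1
    have hL0 : (0 : ℝ) < L := by exact_mod_cast hL1
    rw [dist_zero_right] at hL
    have h1 := (le_abs_self _).trans hL.le
    rw [div_le_iff₀ hL0] at h1
    refine ⟨(wordSet a L).ncard, ?_, (hasWords_iff h L _).2 le_rfl⟩
    rcases Nat.eq_zero_or_pos (wordSet a L).ncard with h0 | h0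
    · rw [h0]; push_cast; exact (Real.exp_pos _).le
    · rw [← Real.log_le_iff_le_exp (by exact_mod_cast h0)]
      exact h1

lemma range_finite {A : Type*} [Finite A] (a : ℕ → A) : (Set.range a).Finite := Set.toFinite _

/-- at most polynomially many words -/
def Poly (a : ℕ → Bool) : Prop := ∃ C d : ℕ, ∀ L : ℕ, 1 ≤ L → (wordSet a L).ncard ≤ C * L ^ d

lemma Poly.res {a : ℕ → Bool} (h : Poly a) (j r : ℕ) : Poly (res j r a) := by
  obtain ⟨C, d, h⟩ := h
  refine ⟨2 ^ j * C, d, fun L hL => ?_⟩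
  rw [← hasWords_iff (range_finite _)]
  refine HasWords.mono (((hasWords_iff (range_finite a) L _).2 (h L hL)).res j r) (le_of_eq ?_)
  ring

lemma Poly.tz {a : ℕ → Bool} (h : Poly a) {s : ℕ} (hs : 1 ≤ s) : Poly (tz s a) := by
  obtain ⟨C, d, h⟩ := h
  refine ⟨2 * C ^ 2, 2 * d + 3, fun L hL => ?_⟩
  rw [← hasWords_iff (range_finite _)]
  refine HasWords.mono (tz_words' hs a hL ((hasWords_iff (range_finite a) L _).2 (h L hL))) (le_of_eq ?_)
  ring

/-- approximation by a Toeplitz sequence -/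
theorem approx {A : Type*} (a : ℕ → A) (ha : (Set.range a).Finite) {ε : ℝ} (hε : 0 < ε) :
    ∃ s : ℕ, 1 ≤ s ∧ Tz (tz s a) ∧ (∀ N : ℕ, (({n | n < N ∧ tz s a n ≠ a n}).ncard : ℝ) ≤ ε * N) ∧
      (∀ L : ℕ, 1 ≤ L → (wordSet (tz s a) L).ncard ≤ 2 * L ^ 3 * (wordSet a L).ncard ^ 2) ∧
      (Set.range (tz s a)).Finite := by
  classical
  obtain ⟨s, hs⟩ := exists_nat_gt (2 / ε)
  have hfin : (Set.range (tz (s + 1) a)).Finite := by
    apply ha.subset
    rintro _ ⟨n, rfl⟩
    exact ⟨_, rfl⟩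
  refine ⟨s + 1, by omega, ?_, ?_, ?_, hfin⟩
  · intro n
    exact ⟨Ex (s + 1) (st (s + 1) 0 n + 1), fun m => tz_period (by omega) _ n m⟩
  · intro N
    have h1 : {n | n < N ∧ tz (s + 1) a n ≠ a n} = Set.Iio N ∩ {n | tz (s + 1) a n ≠ a n} := rfl
    rw [h1, ncard_eq]
    refine (tz_count (by omega) a N).trans ?_
    apply mul_le_mul_of_nonneg_right _ (Nat.cast_nonneg _)
    rw [div_lt_iff₀ hε] at hs
    rw [div_le_iff₀ (by positivity)]
    have h2 : (s : ℝ) ≤ 2 ^ (s + 1) := by
      have : s ≤ 2 ^ (s + 1) := (Nat.lt_two_pow_self (n := s)).le.trans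
        (Nat.pow_le_pow_right (by norm_num) (by omega))
      exact_mod_cast this
    nlinarith
  · intro L hL
    rw [← hasWords_iff hfin]
    exact tz_words' (by omega) a hL ((hasWords_iff ha L _).2 le_rfl)

/-- approximation of an observable of a system of zero entropy by a Toeplitz sequence of zero entropy -/
theorem approx_system {X : Type*} [MetricSpace X] [CompactSpace X] {T : X → X}
    (hE : coverEntropy T Set.univ = 0) (f : C(X, ℂ)) (x : X) {ε : ℝ} (hε : 0 < ε) :
    ∃ b : ℕ → ℂ, (Set.range b).Finite ∧ Tz b ∧ ZE b ∧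
      ∀ N : ℕ, (({n | n < N ∧ ε < ‖f (T^[n] x) - b n‖}).ncard : ℝ) ≤ ε * N := by
  obtain ⟨c, hfin, hclose, hc⟩ := exists_quant _ (az_of_entropy hE f.continuous x) hε
  obtain ⟨s, hs, h1, h2, _, h4⟩ := approx c hfin hε
  refine ⟨tz s c, h4, h1, hc.tz hs, fun N => ?_⟩
  refine le_trans ?_ (h2 N)
  have : {n | n < N ∧ ε < ‖f (T^[n] x) - tz s c n‖} ⊆ {n | n < N ∧ tz s c n ≠ c n} := by
    rintro n ⟨hn, hlt⟩
    refine ⟨hn, fun heq => ?_⟩
    rw [heq] at hlt
    exact absurd (hclose n) (not_le.2 hlt)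
  have hfinN : {n | n < N ∧ tz s c n ≠ c n}.Finite := (Set.finite_Iio N).subset (fun n hn => hn.1)
  exact_mod_cast Set.ncard_le_ncard this hfinN

/-- the equivalences for a kernel -/
theorem equivalences {κ : ℕ → ℕ → ℂ} (hκ : Good κ) (j : ℕ) :
    (Sar κ False ↔ Sar κ True) ∧
    (Sar κ False ↔ ∀ b : ℕ → Bool, Tz b → ZE b → (∃ r, ∀ n, b n = true → n % 2 ^ j = r) →
      Tendsto (Av κ (ind b)) atTop (𝓝 0)) ∧
    ((∀ a : ℕ → Bool, Poly a → Tendsto (Av κ (ind a)) atTop (𝓝 0)) ↔
      ∀ b : ℕ → Bool, Tz b → Poly b → (∃ r, ∀ n, b n = true → n % 2 ^ j = r) →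
      Tendsto (Av κ (ind b)) atTop (𝓝 0)) := by
  have h1 : Sar κ False → Sar κ True := by
    intro H X _ _ T hT hE _ f x
    exact H X T hT hE (fun h => h.elim) f x
  refine ⟨⟨h1, ?_⟩, ⟨?_, ?_⟩, ⟨?_, ?_⟩⟩
  · intro H
    exact sar_of_toeplitz hκ 0 (fun b hb hZ _ => toeplitz_of_sar H b hb hZ)
  · intro H b hb hZ _
    exact toeplitz_of_sar (h1 H) b hb hZ
  · intro H
    exact sar_of_toeplitz hκ j H
  · intro H b _ hP _
    exact H b hP
  · intro H a ha
    exact of_toeplitz hκ Poly (fun a j r h => h.res j r) (fun a s hs h => h.tz hs) j H a ha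

end Pool.Agent.Q132.TS
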