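import Mathlib
import Pool.Agent.Q132.TS.E

/-!
# Short intervals: the strong form (helper132)
-/

set_option autoImplicit false

namespace Pool.Agent.Q132.TS

open Finset Filter Topology Uniformity Dynamics
open scoped ENNReal

/-- few words, up to `η`, for all points at the same time -/
theorem cover_of_entropy {X : Type*} [MetricSpace X] [CompactSpace X] {T : X → X}
    (hE : coverEntropy T Set.univ = 0) {f : X → ℂ} (hf : Continuous f) {η δ : ℝ} (hη : 0 < η) (hδ : 0 < δ) :
    ∀ᶠ L : ℕ in atTop, ∃ s : Finset X, (s.card : ℝ) ≤ Real.exp (δ * L) ∧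
      ∀ y : X, ∃ z ∈ s, ∀ i < L, ‖f (T^[i] y) - f (T^[i] z)‖ ≤ η := by
  classical
  let U : SetRel X X := {p | dist (f p.1) (f p.2) < η}
  have hU : U ∈ 𝓤 X := by
    have h1 := CompactSpace.uniformContinuous_of_continuous hf
    have h2 := (Metric.uniformContinuous_iff.1 h1) η hη
    obtain ⟨r, hr, h3⟩ := h2
    exact Metric.mem_uniformity_dist.2 ⟨r, hr, fun {a b} hab => h3 hab⟩
  have h1 : coverEntropyEntourage T Set.univ U < ((δ : ℝ) : EReal) := by
    refine (coverEntropyEntourage_le_coverEntropy T Set.univ hU).trans_lt ?_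
    rw [hE]
    exact_mod_cast hδ
  have h2 := ExpGrowth.eventually_le_exp h1
  filter_upwards [h2] with L h4
  have h6 : ((δ : ℝ) : EReal) * (L : EReal) = ((δ * L : ℝ) : EReal) := by
    push_cast; rfl
  rw [h6, EReal.exp_coe] at h4
  have hfin : coverMincard T Set.univ U L < ⊤ := by
    by_contra htop
    rw [not_lt, top_le_iff] at htop
    rw [htop] at h4
    simp at h4
  obtain ⟨s, hs, hcard⟩ := (coverMincard_finite_iff T Set.univ U L).1 hfin
  rw [← hcard] at h4
  refine ⟨s, ?_, ?_⟩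
  · have h7 : ((s.card : ℝ≥0∞)) ≤ ENNReal.ofReal (Real.exp (δ * L)) := by simpa using h4
    rw [ENNReal.le_ofReal_iff_toReal_le (by simp) (Real.exp_pos _).le] at h7
    simpa using h7
  · intro y
    obtain ⟨z, hz, hyz⟩ := hs (Set.mem_univ y)
    refine ⟨z, hz, fun i hi => ?_⟩
    have k1 := (mem_dynEntourage.1 hyz) i hi
    have k1' : dist (f (T^[i] y)) (f (T^[i] z)) < η := k1
    rw [dist_eq_norm] at k1'
    exact k1'.le

/-- few words in the aligned blocks -/
theorem az_of_blocks (α : ℕ → ℂ)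
    (h : ∀ η : ℝ, 0 < η → ∀ δ : ℝ, 0 < δ → ∃ (l q₁ : ℕ) (W : Finset (ℕ → ℂ)), 1 ≤ l ∧
      (W.card : ℝ) ≤ Real.exp (δ * l) ∧ ∀ q, q₁ ≤ q → ∃ w ∈ W, ∀ o < l, ‖α (q * l + o) - w o‖ ≤ η) :
    AZ α := by
  classical
  intro η hη δ hδ
  obtain ⟨l, q₁, W, hl, hW, hw⟩ := h (η / 2) (by positivity) (δ / 4) (by positivity)
  choose! wd hwd1 hwd2 using hw
  have hlim1 := ev_exp_ge (show 0 < δ by positivity) (2 * (q₁ * l + 1 : ℕ))
  have hlim2 := ev_exp_ge (show 0 < δ / 2 by positivity) (2 * (l * Real.exp (δ / 2 * l)))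
  obtain ⟨L₀, hL₀⟩ := eventually_atTop.1 (hlim1.and hlim2)
  refine ⟨L₀, fun L hL => ?_⟩
  obtain ⟨k1, k2⟩ := hL₀ L hL
  let data : ℕ → ℕ ⊕ (ℕ × (Fin (L / l + 2) → (ℕ → ℂ))) := fun n =>
    if n < q₁ * l then Sum.inl n else Sum.inr (n % l, fun t => wd (n / l + t))
  let R : Finset (ℕ ⊕ (ℕ × (Fin (L / l + 2) → (ℕ → ℂ)))) :=
    (range (q₁ * l)).disjSum (range l ×ˢ Fintype.piFinset (fun _ => W))
  let pos : ℕ ⊕ (ℕ × (Fin (L / l + 2) → (ℕ → ℂ))) → ℕ := fun d => if hd : ∃ n, data n = d then hd.choose else 0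
  refine ⟨R.image pos, ?_, ?_⟩
  · have hR : (R.card : ℝ) ≤ q₁ * l + l * Real.exp (δ / 4 * l) ^ (L / l + 2) := by
      have : R.card = q₁ * l + l * W.card ^ (L / l + 2) := by
        simp only [R, card_disjSum, card_product, card_range, Fintype.card_piFinset, prod_const, card_univ,
          Fintype.card_fin]
      rw [this]
      push_cast
      gcongr
    have h3 : Real.exp (δ / 4 * l) ^ (L / l + 2) ≤ Real.exp (δ / 4 * L) * Real.exp (δ / 2 * l) := by
      rw [← Real.exp_nat_mul, ← Real.exp_add]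
      apply Real.exp_le_exp.2
      have h4 : (l : ℝ) * ((L / l : ℕ) : ℝ) ≤ L := by exact_mod_cast Nat.mul_div_le L l
      push_cast
      nlinarith
    have h5 : (l : ℝ) * Real.exp (δ / 4 * l) ^ (L / l + 2) ≤ Real.exp (δ * L) / 2 := by
      calc (l : ℝ) * Real.exp (δ / 4 * l) ^ (L / l + 2)
          ≤ l * (Real.exp (δ / 4 * L) * Real.exp (δ / 2 * l)) :=
            mul_le_mul_of_nonneg_left h3 (Nat.cast_nonneg _)
        _ = (2 * (l * Real.exp (δ / 2 * l))) * Real.exp (δ / 4 * L) / 2 := by ring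
        _ ≤ Real.exp (δ / 2 * L) * Real.exp (δ / 2 * L) / 2 := by
            have hL0 : (0 : ℝ) ≤ L := Nat.cast_nonneg _
            have h6 : Real.exp (δ / 4 * L) ≤ Real.exp (δ / 2 * L) :=
              Real.exp_le_exp.2 (by nlinarith)
            have h7 := mul_le_mul k2 h6 (Real.exp_pos _).le (Real.exp_pos _).le
            linarith
        _ = Real.exp (δ * L) / 2 := by rw [← Real.exp_add]; congr 2; ring
    have h8 : ((R.image pos).card : ℝ) ≤ R.card := by exact_mod_cast card_image_le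
    push_cast at k1
    linarith
  · intro n
    have hmem : data n ∈ R := by
      simp only [data, R]
      split_ifs with hn
      · rw [inl_mem_disjSum]; exact mem_range.2 hn
      · rw [inr_mem_disjSum, mem_product, Fintype.mem_piFinset]
        refine ⟨mem_range.2 (Nat.mod_lt _ (by omega)), fun t => hwd1 _ ?_⟩
        have : q₁ ≤ n / l := (Nat.le_div_iff_mul_le (by omega)).2 (by omega)
        exact this.trans (Nat.le_add_right _ _)
    refine ⟨pos (data n), mem_image_of_mem _ hmem, ?_⟩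
    have hd : ∃ m, data m = data n := ⟨n, rfl⟩
    have hpos : data (pos (data n)) = data n := by
      simp only [pos, dif_pos hd]
      exact hd.choose_spec
    set m := pos (data n) with hm
    clear_value m
    intro i hi
    simp only [data] at hpos
    by_cases hn : n < q₁ * l
    · rw [if_pos hn] at hpos
      split_ifs at hpos with hm1
      · rw [Sum.inl.injEq] at hpos
        rw [hpos, sub_self, norm_zero]; exact hη.le
    · rw [if_neg hn] at hpos
      split_ifs at hpos with hm1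
      rw [Sum.inr.injEq, Prod.mk.injEq] at hpos
      obtain ⟨e1, e2⟩ := hpos
      have hx : (n % l + i) / l < L / l + 2 := by
        have h3 : (n % l + i) / l ≤ (l + L) / l := by
          apply Nat.div_le_div_right
          have := Nat.mod_lt n (show 0 < l by omega)
          omega
        rw [Nat.add_div_left _ (by omega)] at h3
        omega
      have e3 := congrFun e2 ⟨(n % l + i) / l, hx⟩
      simp only at e3
      have k1 : n + i = (n / l + (n % l + i) / l) * l + (n % l + i) % l := by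
        have a1 := Nat.div_add_mod n l
        have a2 := Nat.div_add_mod (n % l + i) l
        have a3 : (n / l + (n % l + i) / l) * l = l * (n / l) + l * ((n % l + i) / l) := by ring
        omega
      have k2 : m + i = (m / l + (n % l + i) / l) * l + (n % l + i) % l := by
        rw [← e1]
        have a1 := Nat.div_add_mod m l
        have a2 := Nat.div_add_mod (m % l + i) l
        have a3 : (m / l + (m % l + i) / l) * l = l * (m / l) + l * ((m % l + i) / l) := by ring
        omega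
      have ho : (n % l + i) % l < l := Nat.mod_lt _ (by omega)
      have q1n : q₁ ≤ n / l + (n % l + i) / l := by
        have : q₁ ≤ n / l := (Nat.le_div_iff_mul_le (by omega)).2 (by omega)
        exact this.trans (Nat.le_add_right _ _)
      have q1m : q₁ ≤ m / l + (n % l + i) / l := by
        have : q₁ ≤ m / l := (Nat.le_div_iff_mul_le (by omega)).2 (by omega)
        exact this.trans (Nat.le_add_right _ _)
      have r1 := hwd2 _ q1n _ ho
      have r2 := hwd2 _ q1m _ ho
      rw [← k1, ← e3] at r1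
      rw [← k2] at r2
      calc ‖α (n + i) - α (m + i)‖
          = ‖(α (n + i) - wd (m / l + (n % l + i) / l) ((n % l + i) % l)) -
              (α (m + i) - wd (m / l + (n % l + i) / l) ((n % l + i) % l))‖ := by congr 1; ring
        _ ≤ _ := norm_sub_le _ _
        _ ≤ η := by linarith

/-- the block of `n` -/
noncomputable def kk (b : ℕ → ℕ) (n : ℕ) : ℕ := sSup {k | b k < n}

lemma kk_spec {b : ℕ → ℕ} (hb : StrictMono b) {n : ℕ} (h0 : b 0 < n) :
    b (kk b n) < n ∧ n ≤ b (kk b n + 1) := by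
  have hbdd : BddAbove {k | b k < n} := ⟨n, fun k hk => (hb.le_apply.trans (le_of_lt hk))⟩
  have hne : {k | b k < n}.Nonempty := ⟨0, h0⟩
  have h1 : kk b n ∈ {k | b k < n} := Nat.sSup_mem hne hbdd
  refine ⟨h1, ?_⟩
  by_contra h2
  rw [not_le] at h2
  have h3 : kk b n + 1 ≤ kk b n := le_csSup hbdd h2
  omega

lemma kk_eq {b : ℕ → ℕ} (hb : StrictMono b) {n k : ℕ} (h1 : b k < n) (h2 : n ≤ b (k + 1)) : kk b n = k := by
  have h0 : b 0 < n := lt_of_le_of_lt (hb.monotone (Nat.zero_le k)) h1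
  obtain ⟨h3, h4⟩ := kk_spec hb h0
  apply le_antisymm
  · by_contra h
    rw [not_le] at h
    have : b (k + 1) ≤ b (kk b n) := hb.monotone h
    omega
  · by_contra h
    rw [not_le] at h
    have : b (kk b n + 1) ≤ b k := hb.monotone h
    omega

/-- the sequence which follows the orbit of `x k` in the block `(b k, b (k + 1)]` -/
noncomputable def glue {X : Type*} (T : X → X) (f : X → ℂ) (b : ℕ → ℕ) (x : ℕ → X) (θ : ℕ → ℂ) (n : ℕ) : ℂ :=
  θ (kk b n) * f (T^[n] (x (kk b n)))

lemma disc_net {e : ℝ} (he : 0 < e) : ∃ Θ : Finset ℂ, ∀ θ : ℂ, ‖θ‖ ≤ 1 → ∃ τ ∈ Θ, ‖θ - τ‖ ≤ e ∧ ‖τ‖ ≤ 1 := by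
  have hcomp : IsCompact (Metric.closedBall (0 : ℂ) 1) := isCompact_closedBall 0 1
  obtain ⟨t, ht, hfin, hcov⟩ := hcomp.finite_cover_balls he
  refine ⟨hfin.toFinset, fun θ hθ => ?_⟩
  have h1 := hcov (mem_closedBall_zero_iff.2 hθ)
  rw [Set.mem_iUnion₂] at h1
  obtain ⟨τ, hτ, h2⟩ := h1
  refine ⟨τ, hfin.mem_toFinset.2 hτ, ?_, mem_closedBall_zero_iff.1 (ht hτ)⟩
  rw [Metric.mem_ball, dist_eq_norm] at h2
  exact h2.le

theorem az_glue {X : Type*} [MetricSpace X] [CompactSpace X] {T : X → X}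
    (hE : coverEntropy T Set.univ = 0) {f : X → ℂ} (hf : Continuous f) {b : ℕ → ℕ} (hb : StrictMono b)
    (hgap : Tendsto (fun k => b (k + 1) - b k) atTop atTop) (x : ℕ → X) {θ : ℕ → ℂ} (hθ : ∀ k, ‖θ k‖ ≤ 1) :
    AZ (glue T f b x θ) := by
  classical
  apply az_of_blocks
  intro η hη δ hδ
  obtain ⟨B, hB0, hB⟩ : ∃ B : ℝ, 0 < B ∧ ∀ y, ‖f y‖ ≤ B := by
    obtain ⟨B, hB⟩ := (isCompact_range hf).isBounded.exists_norm_le
    exact ⟨max B 1, by positivity, fun y => (hB _ ⟨y, rfl⟩).trans (le_max_left _ _)⟩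
  obtain ⟨Θ, hΘ⟩ := disc_net (show 0 < η / 2 / B by positivity)
  have hev1 := cover_of_entropy hE hf (show 0 < η / 2 by positivity) (show 0 < δ / 8 by positivity)
  have hev2 : ∀ᶠ l : ℕ in atTop, ((Θ.card : ℝ) ^ 2 + 1) ≤ Real.exp (δ / 4 * l) := ev_exp_ge (by positivity) _
  have hev3 : ∀ᶠ l : ℕ in atTop, 2 * (l : ℝ) ^ 3 ≤ Real.exp (δ / 2 * l) := ev_cube (by positivity)
  obtain ⟨l, ⟨s, hs, hcov⟩, h2, h3, hl⟩ := ((hev1.and (hev2.and (hev3.and (eventually_ge_atTop 1))))).exists
  obtain ⟨k₁, hk₁⟩ := eventually_atTop.1 (hgap.eventually_ge_atTop l)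
  let wf : ℕ × (X × ℂ) × (X × ℂ) → (ℕ → ℂ) := fun p o =>
    if o < p.1 then p.2.1.2 * f (T^[o] p.2.1.1) else p.2.2.2 * f (T^[o] p.2.2.1)
  refine ⟨l, b k₁ + 1, (range (l + 1) ×ˢ ((s ×ˢ Θ) ×ˢ (s ×ˢ Θ))).image wf, hl, ?_, ?_⟩
  · have hc : (((range (l + 1) ×ˢ ((s ×ˢ Θ) ×ˢ (s ×ˢ Θ))).image wf).card : ℝ) ≤
        (l + 1) * ((s.card : ℝ) ^ 2 * (Θ.card : ℝ) ^ 2) := by
      have : ((range (l + 1) ×ˢ ((s ×ˢ Θ) ×ˢ (s ×ˢ Θ))).image wf).card ≤
          (l + 1) * ((s.card * Θ.card) * (s.card * Θ.card)) := by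
        refine card_image_le.trans (le_of_eq ?_)
        simp only [card_product, card_range]
      calc _ ≤ (((l + 1) * ((s.card * Θ.card) * (s.card * Θ.card)) : ℕ) : ℝ) := by exact_mod_cast this
        _ = _ := by push_cast; ring
    refine hc.trans ?_
    have hl1 : (1 : ℝ) ≤ l := by exact_mod_cast hl
    have h4 : ((l : ℝ) + 1) ≤ Real.exp (δ / 2 * l) := by
      refine le_trans ?_ h3
      have : (l : ℝ) ≤ l ^ 3 := by
        calc (l : ℝ) = l * 1 := by ring
          _ ≤ l * l ^ 2 := by gcongr; exact one_le_pow₀ hl1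
          _ = l ^ 3 := by ring
      linarith
    have h5 : (s.card : ℝ) ^ 2 ≤ Real.exp (δ / 4 * l) := by
      calc (s.card : ℝ) ^ 2 ≤ (Real.exp (δ / 8 * l)) ^ 2 := pow_le_pow_left₀ (Nat.cast_nonneg _) hs 2
        _ = Real.exp (δ / 4 * l) := by rw [← Real.exp_nat_mul]; congr 1; push_cast; ring
    calc ((l : ℝ) + 1) * ((s.card : ℝ) ^ 2 * (Θ.card : ℝ) ^ 2)
        ≤ Real.exp (δ / 2 * l) * (Real.exp (δ / 4 * l) * Real.exp (δ / 4 * l)) := by
          apply mul_le_mul h4 _ (by positivity) (Real.exp_pos _).le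
          exact mul_le_mul h5 (by linarith) (by positivity) (Real.exp_pos _).le
      _ = Real.exp (δ * l) := by rw [← Real.exp_add, ← Real.exp_add]; congr 1; ring
  · intro q hq
    -- the block of the first place
    have hb0 : b k₁ < q * l := by
      calc b k₁ < q := by omega
        _ ≤ q * l := Nat.le_mul_of_pos_right _ (by omega)
    have hb00 : b 0 < q * l := lt_of_le_of_lt (hb.monotone (Nat.zero_le _)) hb0
    obtain ⟨g1, g2⟩ := kk_spec hb hb00
    set k := kk b (q * l) with hk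
    have hkk : k₁ ≤ k := by
      by_contra h
      rw [not_le] at h
      have : b (k + 1) ≤ b k₁ := hb.monotone h
      omega
    have hgap1 : l ≤ b (k + 1 + 1) - b (k + 1) := hk₁ (k + 1) (by omega)
    obtain ⟨τ, hτ, hτ1, hτ2⟩ := hΘ (θ k) (hθ k)
    obtain ⟨τ', hτ', hτ1', hτ2'⟩ := hΘ (θ (k + 1)) (hθ (k + 1))
    obtain ⟨z, hz, hz1⟩ := hcov (T^[q * l] (x k))
    obtain ⟨z', hz', hz1'⟩ := hcov (T^[q * l] (x (k + 1)))
    refine ⟨wf (min l (b (k + 1) + 1 - q * l), (z, τ), (z', τ')), ?_, ?_⟩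
    · apply mem_image_of_mem
      simp only [mem_product, mem_range]
      exact ⟨by omega, ⟨hz, hτ⟩, ⟨hz', hτ'⟩⟩
    · intro o ho
      have hest : ∀ (c d : ℂ) (u v : ℂ), ‖c - d‖ ≤ η / 2 / B → ‖d‖ ≤ 1 → ‖u‖ ≤ B → ‖u - v‖ ≤ η / 2 →
          ‖c * u - d * v‖ ≤ η := by
        intro c d u v e1 e2 e3 e4
        calc ‖c * u - d * v‖ = ‖(c - d) * u + d * (u - v)‖ := by congr 1; ring
          _ ≤ ‖c - d‖ * ‖u‖ + ‖d‖ * ‖u - v‖ := by
              refine (norm_add_le _ _).trans ?_
              rw [norm_mul, norm_mul]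
          _ ≤ η / 2 / B * B + 1 * (η / 2) := by
              gcongr
          _ = η := by field_simp; ring
      simp only [wf, glue]
      by_cases hot : o < min l (b (k + 1) + 1 - q * l)
      · rw [if_pos hot]
        have hke : kk b (q * l + o) = k := by
          apply kk_eq hb
          · omega
          · have := lt_of_lt_of_le hot (min_le_right _ _)
            omega
        rw [hke, Nat.add_comm (q * l) o, Function.iterate_add_apply]
        exact hest _ _ _ _ hτ1 hτ2 (hB _) (hz1 o ho)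
      · rw [if_neg hot]
        have hke : kk b (q * l + o) = k + 1 := by
          apply kk_eq hb
          · have : b (k + 1) + 1 - q * l ≤ o := by
              rcases le_total l (b (k + 1) + 1 - q * l) with h | h
              · rw [min_eq_left h] at hot; omega
              · rw [min_eq_right h] at hot; omega
            omega
          · omega
        rw [hke, Nat.add_comm (q * l) o, Function.iterate_add_apply]
        exact hest _ _ _ _ hτ1' hτ2' (hB _) (hz1' o ho)

/-- the strong form of Sarnak's conjecture: short intervals, with a new point in every interval -/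
def Strong (w : ℕ → ℂ) (Z : ℕ → ℝ) : Prop :=
  ∀ (X : Type) [MetricSpace X] [CompactSpace X] (T : X → X), Continuous T →
    coverEntropy T Set.univ = 0 → ∀ (f : C(X, ℂ)) (b : ℕ → ℕ), StrictMono b →
    Tendsto (fun k => b (k + 1) - b k) atTop atTop → ∀ x : ℕ → X,
    Tendsto (fun K => (1 / Z (b K)) * ∑ k ∈ range K, ‖∑ n ∈ Ioc (b k) (b (k + 1)), w n * f (T^[n] (x k))‖)
      atTop (𝓝 0)

lemma sum_blocks {b : ℕ → ℕ} (hb : StrictMono b) (g : ℕ → ℂ) (K : ℕ) :
    ∑ n ∈ Icc 1 (b K), g n = ∑ n ∈ Icc 1 (b 0), g n + ∑ k ∈ range K, ∑ n ∈ Ioc (b k) (b (k + 1)), g n := by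
  induction K with
  | zero => simp
  | succ K ih =>
    rw [sum_range_succ, ← add_assoc, ← ih]
    have h1 : Icc 1 (b (K + 1)) = Icc 1 (b K) ∪ Ioc (b K) (b (K + 1)) := by
      ext n
      have := hb (show K < K + 1 by omega)
      simp only [mem_union, mem_Icc, mem_Ioc]
      omega
    rw [h1, sum_union]
    rw [disjoint_left]
    intro n hn hn'
    rw [mem_Icc] at hn
    rw [mem_Ioc] at hn'
    omega

theorem strong_of_bool {w : ℕ → ℂ} {Z : ℕ → ℝ} (hZ0 : ∀ N, 0 ≤ Z N) (hZ : Tendsto Z atTop atTop)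
    (hκ : Good (fun N n => w n / (Z N : ℂ)))
    (H : ∀ a : ℕ → Bool, ZE a → Tendsto (Av (fun N n => w n / (Z N : ℂ)) (ind a)) atTop (𝓝 0)) :
    Strong w Z := by
  classical
  intro X _ _ T _ hE f b hb hgap x
  -- the phases
  let S : ℕ → ℂ := fun k => ∑ n ∈ Ioc (b k) (b (k + 1)), w n * f (T^[n] (x k))
  let θ : ℕ → ℂ := fun k => if S k = 0 then 0 else (starRingEnd ℂ) (S k) / ‖S k‖
  have hθ : ∀ k, ‖θ k‖ ≤ 1 := by
    intro k
    simp only [θ]
    split_ifs with h
    · simp
    · rw [norm_div, RCLike.norm_conj, Complex.norm_real, norm_norm, div_self (norm_ne_zero_iff.2 h)]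
  have hθS : ∀ k, θ k * S k = ‖S k‖ := by
    intro k
    simp only [θ]
    split_ifs with h
    · rw [h]; simp
    · have hne : (‖S k‖ : ℂ) ≠ 0 := by exact_mod_cast norm_ne_zero_iff.2 h
      rw [div_mul_eq_mul_div, mul_comm ((starRingEnd ℂ) (S k)), Complex.mul_conj, div_eq_iff hne,
        Complex.normSq_eq_norm_sq]
      push_cast; ring
  have h1 := of_bool hκ H _ (az_glue hE f.continuous hb hgap x hθ)
  have h2 := h1.comp hb.tendsto_atTop
  have hbt : Tendsto (fun K => Z (b K)) atTop atTop := hZ.comp hb.tendsto_atTop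
  -- the initial part
  let c0 : ℂ := ∑ n ∈ Icc 1 (b 0), w n * glue T f b x θ n
  have h3 : Tendsto (fun K => c0 / (Z (b K) : ℂ)) atTop (𝓝 0) := by
    rw [tendsto_zero_iff_norm_tendsto_zero]
    have : Tendsto (fun K => ‖c0‖ / Z (b K)) atTop (𝓝 0) := hbt.const_div_atTop _
    refine this.congr (fun K => ?_)
    rw [norm_div, Complex.norm_real, Real.norm_of_nonneg (hZ0 _)]
  have h4 := h2.sub h3
  rw [sub_zero] at h4
  have h5 : ∀ K, (Av (fun N n => w n / (Z N : ℂ)) (glue T f b x θ) ∘ b) K - c0 / (Z (b K) : ℂ) =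
      (((1 / Z (b K)) * ∑ k ∈ range K, ‖S k‖ : ℝ) : ℂ) := by
    intro K
    have e1 : (Av (fun N n => w n / (Z N : ℂ)) (glue T f b x θ) ∘ b) K =
        (1 / (Z (b K) : ℂ)) * ∑ n ∈ Icc 1 (b K), w n * glue T f b x θ n := by
      simp only [Function.comp_apply, Av]
      rw [mul_sum]
      apply sum_congr rfl
      intro n _
      ring
    rw [e1, sum_blocks hb]
    have e2 : ∀ k, ∑ n ∈ Ioc (b k) (b (k + 1)), w n * glue T f b x θ n = ((‖S k‖ : ℝ) : ℂ) := by
      intro k
      rw [← hθS k]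
      simp only [S]
      rw [mul_sum]
      apply sum_congr rfl
      intro n hn
      rw [mem_Ioc] at hn
      unfold glue
      rw [kk_eq hb hn.1 hn.2]
      ring
    simp_rw [e2]
    push_cast
    simp only [c0]
    ring
  have h6 : Tendsto (fun K => ((((1 / Z (b K)) * ∑ k ∈ range K, ‖S k‖ : ℝ) : ℂ))) atTop (𝓝 0) :=
    h4.congr h5
  have h7 := (Complex.continuous_re.tendsto 0).comp h6
  rw [Complex.zero_re] at h7
  refine h7.congr (fun K => ?_)
  rw [Function.comp_apply, Complex.ofReal_re]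

end Pool.Agent.Q132.TS
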