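import Mathlib
import Pool.Agent.Q132.TS.F

/-!
# The equivalences (helper132)
-/

set_option autoImplicit false

namespace Pool.Agent.Q132.TS

open Finset Filter Topology Dynamics

theorem sar_of_strong {w : ℕ → ℂ} {Z : ℕ → ℝ} (hZ0 : ∀ N, 0 ≤ Z N) (hZ : Tendsto Z atTop atTop)
    (H : Strong w Z) : Sar (fun N n => w n / (Z N : ℂ)) False := by
  intro X _ _ T hT hE _ f x
  by_contra hnot
  rw [Metric.tendsto_nhds] at hnot
  push Not at hnot
  obtain ⟨e, he, hfr⟩ := hnot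
  have hex : ∀ N, ∃ n > N, e ≤ ‖Av (fun N n => w n / (Z N : ℂ)) (fun n => f (T^[n] x)) n‖ := by
    intro N
    obtain ⟨n, hn, h1⟩ := (frequently_atTop.1 hfr) (N + 1)
    rw [dist_zero_right] at h1
    exact ⟨n, by omega, h1⟩
  obtain ⟨φ, hφ, hφ2⟩ := Nat.exists_strictMono_subsequence hex
  let b : ℕ → ℕ := fun k => φ (k * k)
  have hb : StrictMono b := by
    apply strictMono_nat_of_lt_succ
    intro k
    apply hφ
    nlinarith
  have hgap : Tendsto (fun k => b (k + 1) - b k) atTop atTop := by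
    apply tendsto_atTop_mono _ tendsto_id
    intro k
    have h1 : ∀ m d : ℕ, φ m + d ≤ φ (m + d) := by
      intro m d
      induction d with
      | zero => simp
      | succ d ih =>
        have := hφ (show m + d < m + (d + 1) by omega)
        omega
    have h2 := h1 (k * k) (2 * k + 1)
    have h3 : k * k + (2 * k + 1) = (k + 1) * (k + 1) := by ring
    rw [h3] at h2
    show k ≤ φ ((k + 1) * (k + 1)) - φ (k * k)
    omega
  have h1 := H X T hT hE f b hb hgap (fun _ => x)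
  have hbt : Tendsto (fun K => Z (b K)) atTop atTop := hZ.comp hb.tendsto_atTop
  let c0 : ℂ := ∑ n ∈ Icc 1 (b 0), w n * f (T^[n] x)
  have h2 : Tendsto (fun K => ‖c0‖ / Z (b K)) atTop (𝓝 0) := hbt.const_div_atTop _
  have h3 := h2.add h1
  rw [add_zero] at h3
  obtain ⟨K, hK⟩ := ((Metric.tendsto_nhds.1 h3) e he).exists
  have h4 := hφ2 (K * K)
  have h5 : ‖Av (fun N n => w n / (Z N : ℂ)) (fun n => f (T^[n] x)) (b K)‖ ≤
      ‖c0‖ / Z (b K) + 1 / Z (b K) * ∑ k ∈ range K, ‖∑ n ∈ Ioc (b k) (b (k + 1)), w n * f (T^[n] x)‖ := by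
    have e1 : Av (fun N n => w n / (Z N : ℂ)) (fun n => f (T^[n] x)) (b K) =
        (1 / (Z (b K) : ℂ)) * ∑ n ∈ Icc 1 (b K), w n * f (T^[n] x) := by
      unfold Av
      rw [mul_sum]
      apply sum_congr rfl
      intro n _
      ring
    rw [e1, sum_blocks hb, norm_mul, norm_div, norm_one, Complex.norm_real, Real.norm_of_nonneg (hZ0 _)]
    calc 1 / Z (b K) * ‖∑ n ∈ Icc 1 (b 0), w n * f (T^[n] x) +
          ∑ k ∈ range K, ∑ n ∈ Ioc (b k) (b (k + 1)), w n * f (T^[n] x)‖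
        ≤ 1 / Z (b K) * (‖c0‖ + ∑ k ∈ range K, ‖∑ n ∈ Ioc (b k) (b (k + 1)), w n * f (T^[n] x)‖) := by
          apply mul_le_mul_of_nonneg_left _ (div_nonneg zero_le_one (hZ0 _))
          exact (norm_add_le _ _).trans (add_le_add le_rfl (norm_sum_le _ _))
      _ = _ := by ring
  rw [dist_zero_right] at hK
  have h6 := (le_abs_self _).trans_lt hK
  exact absurd (h4.trans h5) (not_le.2 h6)

/-- **All equivalences.** -/
theorem all_equiv {w : ℕ → ℂ} {Z : ℕ → ℝ} (hZ0 : ∀ N, 0 ≤ Z N) (hZ : Tendsto Z atTop atTop)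
    (hκ : Good (fun N n => w n / (Z N : ℂ))) (j : ℕ) :
    (Sar (fun N n => w n / (Z N : ℂ)) False ↔ Sar (fun N n => w n / (Z N : ℂ)) True) ∧
    (Sar (fun N n => w n / (Z N : ℂ)) False ↔ Strong w Z) ∧
    (Sar (fun N n => w n / (Z N : ℂ)) False ↔
      ∀ b : ℕ → Bool, Tz b → ZE b → (∃ r, ∀ n, b n = true → n % 2 ^ j = r) →
      Tendsto (Av (fun N n => w n / (Z N : ℂ)) (ind b)) atTop (𝓝 0)) ∧
    ((∀ a : ℕ → Bool, Poly a → Tendsto (Av (fun N n => w n / (Z N : ℂ)) (ind a)) atTop (𝓝 0)) ↔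
      ∀ b : ℕ → Bool, Tz b → Poly b → (∃ r, ∀ n, b n = true → n % 2 ^ j = r) →
      Tendsto (Av (fun N n => w n / (Z N : ℂ)) (ind b)) atTop (𝓝 0)) := by
  obtain ⟨h1, h2, h3⟩ := equivalences hκ j
  refine ⟨h1, ⟨?_, sar_of_strong hZ0 hZ⟩, h2, h3⟩
  intro H
  apply strong_of_bool hZ0 hZ hκ
  intro a ha
  exact of_toeplitz hκ ZE (fun a j r h => h.res j r) (fun a s hs h => h.tz hs) j (h2.1 H) a ha

/-! ### The two kernels -/

lemma cesaro_conv (u g : ℕ → ℂ) (N : ℕ) :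
    Av (fun N n => u n / (((N : ℕ) : ℝ) : ℂ)) g N = (1 / (N : ℂ)) * ∑ n ∈ Icc 1 N, g n * u n := by
  unfold Av
  rw [mul_sum]
  apply sum_congr rfl
  intro n _
  push_cast
  ring

lemma cesaro_ind (u : ℕ → ℂ) (b : ℕ → Bool) (N : ℕ) :
    Av (fun N n => u n / (((N : ℕ) : ℝ) : ℂ)) (ind b) N =
      (1 / (N : ℂ)) * ∑ n ∈ Icc 1 N, if b n then u n else 0 := by
  rw [cesaro_conv]
  congr 1
  apply sum_congr rfl
  intro n _
  unfold ind
  split_ifs <;> simp

lemma log_conv (u g : ℕ → ℂ) (N : ℕ) :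
    Av (fun N n => u n / n / ((Real.log N : ℝ) : ℂ)) g N =
      (1 / (Real.log (N : ℝ) : ℂ)) * ∑ n ∈ Icc 1 N, g n * u n / (n : ℂ) := by
  unfold Av
  rw [mul_sum]
  apply sum_congr rfl
  intro n _
  ring

lemma log_ind (u : ℕ → ℂ) (b : ℕ → Bool) (N : ℕ) :
    Av (fun N n => u n / n / ((Real.log N : ℝ) : ℂ)) (ind b) N =
      (1 / (Real.log (N : ℝ) : ℂ)) * ∑ n ∈ Icc 1 N, if b n then u n / (n : ℂ) else 0 := by
  rw [log_conv]
  congr 1
  apply sum_congr rfl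
  intro n _
  unfold ind
  split_ifs <;> simp

lemma good_cesaro' {u : ℕ → ℂ} {B : ℝ} (hu : ∀ n, ‖u n‖ ≤ B) :
    Good (fun N n => u n / (((N : ℕ) : ℝ) : ℂ)) := by
  simpa using good_cesaro hu

end Pool.Agent.Q132.TS
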